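import Pool.Agent.J4.H71.Gorin.CovMap

/-! Lifts of holomorphic curves, and the lifts of a line near infinity. -/

set_option autoImplicit false
set_option maxHeartbeats 4000000

open Metric Set Topology Filter H113G

namespace Pool.Agent.J4.H71.Gorin

variable {m k : ℕ} {Y : Set (Fin m → ℂ)} {pr : (Fin m → ℂ) → (Fin k → ℂ)}
  {δ : MvPolynomial (Fin k) ℂ} {e : ℕ}

/-- continuous lift of `φ` over `K` -/
def IsLift (Y : Set (Fin m → ℂ)) (pr : (Fin m → ℂ) → (Fin k → ℂ)) (φ : ℂ → (Fin k → ℂ))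
    (K : Set ℂ) (s : ℂ → (Fin m → ℂ)) : Prop :=
  ContinuousOn s K ∧ ∀ t ∈ K, s t ∈ Y ∧ pr (s t) = φ t

theorem lift_unique (hc : Cov Y pr δ e) {φ : ℂ → (Fin k → ℂ)} {K : Set ℂ}
    (hK : IsPreconnected K) (hδ : ∀ t ∈ K, MvPolynomial.eval (φ t) δ ≠ 0)
    {s s' : ℂ → (Fin m → ℂ)} (hs : IsLift Y pr φ K s) (hs' : IsLift Y pr φ K s') {t₀ : ℂ}
    (ht₀ : t₀ ∈ K) (h : s t₀ = s' t₀) : ∀ t ∈ K, s t = s' t := by
  intro t ht
  have : PreconnectedSpace K := isPreconnected_iff_preconnectedSpace.1 hK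
  let F : K → Yo Y pr δ := fun t => ⟨s t, (hs.2 t t.2).1, by
    rw [(hs.2 t t.2).2]; exact hδ t t.2⟩
  let F' : K → Yo Y pr δ := fun t => ⟨s' t, (hs'.2 t t.2).1, by
    rw [(hs'.2 t t.2).2]; exact hδ t t.2⟩
  have hF : Continuous F :=
    Continuous.subtype_mk (continuousOn_iff_continuous_domRestrict.1 hs.1) _
  have hF' : Continuous F' :=
    Continuous.subtype_mk (continuousOn_iff_continuous_domRestrict.1 hs'.1) _
  have heq : F = F' := by
    refine (isCoveringMap_qY hc).eq_of_comp_eq hF hF' ?_ ⟨t₀, ht₀⟩ ?_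
    · funext t
      refine Subtype.ext ?_
      change pr (s t) = pr (s' t)
      rw [(hs.2 t t.2).2, (hs'.2 t t.2).2]
    · exact Subtype.ext h
  exact congrArg (fun w : Yo Y pr δ => w.1) (congrFun heq ⟨t, ht⟩)

theorem exists_lift (hc : Cov Y pr δ e) {φ : ℂ → (Fin k → ℂ)} {K : Set ℂ} (hK : Convex ℝ K)
    (hKo : IsOpen K) (hφ : ContinuousOn φ K) (hδ : ∀ t ∈ K, MvPolynomial.eval (φ t) δ ≠ 0)
    {t₀ : ℂ} (ht₀ : t₀ ∈ K) {y₀ : Fin m → ℂ} (hy₀ : y₀ ∈ Y) (hpy : pr y₀ = φ t₀) :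
    ∃ s : ℂ → (Fin m → ℂ), IsLift Y pr φ K s ∧ s t₀ = y₀ := by
  classical
  have : ContractibleSpace K := hK.contractibleSpace ⟨t₀, ht₀⟩
  have : LocallyPathConnectedSpace K := hKo.locallyPathConnectedSpace
  let f : C(K, Sp δ) := ⟨fun t => ⟨φ t, hδ t t.2⟩,
    (continuousOn_iff_continuous_domRestrict.1 hφ).subtype_mk _⟩
  obtain ⟨F, ⟨hF0, hF⟩, -⟩ := (isCoveringMap_qY hc).existsUnique_continuousMap_lifts f ⟨t₀, ht₀⟩
    ⟨y₀, hy₀, by rw [hpy]; exact hδ t₀ ht₀⟩ (Subtype.ext hpy)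
  refine ⟨fun t => if ht : t ∈ K then (F ⟨t, ht⟩).1 else 0, ⟨?_, ?_⟩, ?_⟩
  · rw [continuousOn_iff_continuous_domRestrict]
    have h1 : Continuous (fun t : K => (F t).1) := continuous_subtype_val.comp F.continuous
    convert h1 using 1
    ext t
    simp
  · intro t ht
    have h1 : pr (F ⟨t, ht⟩).1 = φ t := congrArg Subtype.val (congrFun hF ⟨t, ht⟩)
    simp only [ht, dif_pos]
    exact ⟨(F ⟨t, ht⟩).2.1, h1⟩
  · simp only [ht₀, dif_pos]
    rw [hF0]

/-- all lifts over a convex open set -/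
theorem exists_lifts (hc : Cov Y pr δ e) {φ : ℂ → (Fin k → ℂ)} {K : Set ℂ} (hK : Convex ℝ K)
    (hKo : IsOpen K) (hφ : ContinuousOn φ K) (hδ : ∀ t ∈ K, MvPolynomial.eval (φ t) δ ≠ 0) :
    ∃ s : Fin e → ℂ → (Fin m → ℂ), (∀ i, IsLift Y pr φ K (s i)) ∧
      ∀ t ∈ K, {y | y ∈ Y ∧ pr y = φ t} = Set.range (fun i => s i t) ∧
        Function.Injective (fun i => s i t) := by
  classical
  rcases K.eq_empty_or_nonempty with h | ⟨t₀, ht₀⟩
  · subst h
    exact ⟨fun _ _ => 0, fun i => ⟨continuousOn_empty _, fun t ht => absurd ht (notMem_empty t)⟩,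
      fun x hx => absurd hx (notMem_empty _)⟩
  · obtain ⟨r, hr, σ, -, hσ⟩ := hc.sections (φ t₀) (hδ t₀ ht₀)
    have hσ0 := hσ (φ t₀) (mem_ball_self hr)
    have hmem : ∀ i, σ i (φ t₀) ∈ {y | y ∈ Y ∧ pr y = φ t₀} := by
      intro i; rw [hσ0.2.2]; exact ⟨i, rfl⟩
    choose s hs hs0 using fun i => exists_lift hc hK hKo hφ hδ ht₀ (hmem i).1 (hmem i).2
    refine ⟨s, hs, fun t ht => ⟨?_, ?_⟩⟩
    · ext y
      constructor
      · rintro ⟨hy, hyp⟩
        obtain ⟨s', hs', hs'0⟩ := exists_lift hc hK hKo hφ hδ ht hy hyp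
        have h1 : s' t₀ ∈ {y | y ∈ Y ∧ pr y = φ t₀} := hs'.2 t₀ ht₀
        rw [hσ0.2.2] at h1
        obtain ⟨i, hi⟩ := h1
        refine ⟨i, ?_⟩
        have h2 := lift_unique hc hK.isPreconnected hδ (hs i) hs' ht₀ ((hs0 i).trans hi) t ht
        rw [← hs'0]
        exact h2
      · rintro ⟨i, rfl⟩
        exact (hs i).2 t ht
    · intro i j hij
      have h2 := lift_unique hc hK.isPreconnected hδ (hs i) (hs j) ht hij t₀ ht₀
      rw [hs0, hs0] at h2
      exact hσ0.2.1 h2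

/-- continuous lifts of holomorphic curves are holomorphic -/
theorem lift_diff (hc : Cov Y pr δ e) {φ : ℂ → (Fin k → ℂ)} {K : Set ℂ} (hKo : IsOpen K)
    (hφ : DifferentiableOn ℂ φ K) (hδ : ∀ t ∈ K, MvPolynomial.eval (φ t) δ ≠ 0)
    {s : ℂ → (Fin m → ℂ)} (hs : IsLift Y pr φ K s) : DifferentiableOn ℂ s K := by
  classical
  intro t ht
  obtain ⟨r, hr, σ, hσd, hσ⟩ := hc.sections (φ t) (hδ t ht)
  have hσ0 := hσ (φ t) (mem_ball_self hr)
  have h1 : s t ∈ {y | y ∈ Y ∧ pr y = φ t} := hs.2 t ht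
  rw [hσ0.2.2] at h1
  obtain ⟨i, hi⟩ := h1
  simp only at hi
  have hφc : ContinuousAt φ t := (hφ t ht).continuousWithinAt.continuousAt (hKo.mem_nhds ht)
  have hsc : ContinuousAt s t := hs.1.continuousAt (hKo.mem_nhds ht)
  have hball : ∀ᶠ t' in 𝓝 t, φ t' ∈ ball (φ t) r := hφc (isOpen_ball.mem_nhds (mem_ball_self hr))
  have hsep : ∀ j, ∀ᶠ t' in 𝓝 t, j ≠ i → σ j (φ t') ≠ s t' := by
    intro j
    by_cases hj : j = i
    · exact Eventually.of_forall (fun _ h => absurd hj h)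
    · have h3 : ContinuousAt (fun t' => σ j (φ t') - s t') t := by
        refine ContinuousAt.sub ?_ hsc
        have h4 : ContinuousAt (σ j) (φ t) :=
          (hσd j).continuousOn.continuousAt (isOpen_ball.mem_nhds (mem_ball_self hr))
        exact h4.comp hφc
      have h5 : σ j (φ t) - s t ≠ 0 := by
        rw [sub_ne_zero]
        intro h6
        exact hj (hσ0.2.1 (h6.trans hi.symm))
      filter_upwards [h3.eventually_ne h5] with t' h6 _
      exact sub_ne_zero.1 h6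
  have heq : s =ᶠ[𝓝 t] fun t' => σ i (φ t') := by
    filter_upwards [hball, eventually_all.2 hsep, hKo.mem_nhds ht] with t' h3 h4 h5
    have h6 : s t' ∈ {y | y ∈ Y ∧ pr y = φ t'} := hs.2 t' h5
    rw [(hσ _ h3).2.2] at h6
    obtain ⟨j, hj⟩ := h6
    by_cases hji : j = i
    · rw [← hji]; exact hj.symm
    · exact absurd hj (h4 j hji)
  have hd : DifferentiableAt ℂ (fun t' => σ i (φ t')) t := by
    have h3 : DifferentiableAt ℂ (σ i) (φ t) :=
      (hσd i).differentiableAt (isOpen_ball.mem_nhds (mem_ball_self hr))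
    have h4 : DifferentiableAt ℂ φ t := hφ.differentiableAt (hKo.mem_nhds ht)
    exact h3.comp t h4
  exact (hd.congr_of_eventuallyEq heq).differentiableWithinAt

/-- roots on a line are bounded -/
theorem line_roots_bounded {k : ℕ} (δ : MvPolynomial (Fin k) ℂ) (h0 : MvPolynomial.eval 0 δ ≠ 0)
    (v : Fin k → ℂ) : ∃ P : Polynomial ℂ, P ≠ 0 ∧ ∀ t : ℂ, P.eval t = MvPolynomial.eval (t • v) δ := by
  let P : Polynomial ℂ := MvPolynomial.aeval (fun i => Polynomial.X * Polynomial.C (v i)) δ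
  have hP : ∀ t : ℂ, P.eval t = MvPolynomial.eval (t • v) δ := by
    intro t
    have : (Polynomial.evalRingHom t).comp ((MvPolynomial.aeval (fun i : Fin k => (Polynomial.X *
        Polynomial.C (v i) : Polynomial ℂ))).toRingHom :
        MvPolynomial (Fin k) ℂ →+* Polynomial ℂ) = MvPolynomial.eval (t • v) := by
      apply MvPolynomial.ringHom_ext
      · intro r
        simp
      · intro i
        simp only [RingHom.coe_comp, Function.comp_apply, AlgHom.toRingHom_eq_coe, RingHom.coe_coe,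
          MvPolynomial.aeval_X, Polynomial.coe_evalRingHom, Polynomial.eval_mul, Polynomial.eval_X,
          Polynomial.eval_C, MvPolynomial.eval_X, Pi.smul_apply, smul_eq_mul]
    exact congrArg (fun f => f δ) this
  refine ⟨P, ?_, hP⟩
  intro h
  have := hP 0
  rw [h, Polynomial.eval_zero, zero_smul] at this
  exact h0 this.symm

/-- the lifts of a line near infinity -/
theorem exists_endLift' (hc : Cov Y pr δ e) (v : Fin k → ℂ) :
    ∃ (c : ℝ) (κ : ℕ) (Λ : Fin e → ℂ → (Fin m → ℂ)), EndLift Y pr δ e v c κ Λ ∧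
      ∀ s : ℂ, c < s.re → Function.Injective (fun i => Λ i s) := by
  classical
  obtain ⟨P, hP0, hP⟩ := line_roots_bounded δ hc.base v
  obtain ⟨c, hcP⟩ : ∃ c : ℝ, ∀ s : ℂ, c < s.re → P.eval (Complex.exp s) ≠ 0 := by
    let M : ℝ := ∑ a ∈ P.roots.toFinset, ‖a‖ + 1
    have hM : 0 < M := by positivity
    refine ⟨Real.log M, fun s hs h => ?_⟩
    have h1 : Complex.exp s ∈ P.roots.toFinset := by
      rw [Multiset.mem_toFinset, Polynomial.mem_roots hP0]; exact h
    have h2 : ‖Complex.exp s‖ ≤ ∑ a ∈ P.roots.toFinset, ‖a‖ :=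
      Finset.single_le_sum (f := fun a : ℂ => ‖a‖) (fun _ _ => norm_nonneg _) h1
    rw [Complex.norm_exp] at h2
    have h3 : M < Real.exp s.re := by
      rw [← Real.exp_log hM]
      exact Real.exp_lt_exp.2 hs
    have : M = ∑ a ∈ P.roots.toFinset, ‖a‖ + 1 := rfl
    linarith
  set H : Set ℂ := {s : ℂ | c < s.re} with hH
  have hHo : IsOpen H := isOpen_lt continuous_const Complex.continuous_re
  have hHc : Convex ℝ H := convex_halfSpace_re_gt c
  set φ : ℂ → (Fin k → ℂ) := fun s => Complex.exp s • v with hφ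
  have hφd : Differentiable ℂ φ := by
    intro s
    exact (Complex.differentiable_exp s).smul_const v
  have hδ : ∀ s ∈ H, MvPolynomial.eval (φ s) δ ≠ 0 := by
    intro s hs
    rw [hφ]
    simp only
    rw [← hP]
    exact hcP s hs
  obtain ⟨Λ, hΛ, hfib⟩ := exists_lifts hc hHc hHo hφd.continuous.continuousOn hδ
  -- the permutation
  have hshift : ∀ s, s ∈ H → ∀ (n : ℕ), s + n * (2 * Real.pi * Complex.I) ∈ H := by
    intro s hs n
    have : (s + n * (2 * Real.pi * Complex.I)).re = s.re := by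
      have h1 : (n : ℂ) * (2 * Real.pi * Complex.I) = ((n * (2 * Real.pi) : ℝ) : ℂ) * Complex.I := by
        push_cast; ring
      rw [h1, Complex.add_re, Complex.re_ofReal_mul, Complex.I_re, mul_zero, add_zero]
    change c < _
    rw [this]
    exact hs
  have hφper : ∀ s, φ (s + 2 * Real.pi * Complex.I) = φ s := by
    intro s
    simp only [hφ]
    rw [Complex.exp_periodic s]
  have hlift : ∀ i, IsLift Y pr φ H (fun s => Λ i (s + 2 * Real.pi * Complex.I)) := by
    intro i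
    have hm : ∀ s ∈ H, s + 2 * Real.pi * Complex.I ∈ H := by
      intro s hs
      have := hshift s hs 1
      simpa using this
    refine ⟨?_, ?_⟩
    · refine (hΛ i).1.comp (Continuous.continuousOn ?_) hm
      fun_prop
    · intro t ht
      have := (hΛ i).2 _ (hm t ht)
      rw [hφper] at this
      exact this
  have hHne : ((c + 1 : ℝ) : ℂ) ∈ H := by
    change c < ((c + 1 : ℝ) : ℂ).re
    rw [Complex.ofReal_re]; linarith
  set s₀ : ℂ := ((c + 1 : ℝ) : ℂ) with hs₀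
  have hperm : ∀ i, ∃ j, ∀ s ∈ H, Λ i (s + 2 * Real.pi * Complex.I) = Λ j s := by
    intro i
    have h1 : Λ i (s₀ + 2 * Real.pi * Complex.I) ∈ {y | y ∈ Y ∧ pr y = φ s₀} :=
      (hlift i).2 s₀ hHne
    rw [(hfib s₀ hHne).1] at h1
    obtain ⟨j, hj⟩ := h1
    exact ⟨j, lift_unique hc hHc.isPreconnected hδ (hlift i) (hΛ j) hHne hj.symm⟩
  choose π hπ using hperm
  have hπinj : Function.Injective π := by
    intro i j hij
    have h1 := hπ i s₀ hHne
    have h2 := hπ j s₀ hHne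
    rw [hij, ← h2] at h1
    have h3 : s₀ + 2 * Real.pi * Complex.I ∈ H := by
      have := hshift s₀ hHne 1
      simpa using this
    exact (hfib _ h3).2 h1
  let Qp : Equiv.Perm (Fin e) := Equiv.ofBijective π (Finite.injective_iff_bijective.1 hπinj)
  have hiter : ∀ n : ℕ, ∀ i, ∀ s ∈ H, Λ i (s + n * (2 * Real.pi * Complex.I)) = Λ ((Qp ^ n) i) s := by
    intro n
    induction n with
    | zero => intro i s _; simp
    | succ n ih =>
      intro i s hs
      have h1 : s + ((n + 1 : ℕ) : ℂ) * (2 * Real.pi * Complex.I) =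
          (s + n * (2 * Real.pi * Complex.I)) + 2 * Real.pi * Complex.I := by
        push_cast; ring
      rw [h1, hπ i _ (hshift s hs n), ih (π i) s hs, pow_succ]
      rfl
  refine ⟨c, orderOf Qp, Λ, ⟨orderOf_pos Qp, ?_, ?_, ?_, ?_⟩, fun s hs => (hfib s hs).2⟩
  · exact fun i => lift_diff hc hHo hφd.differentiableOn hδ (hΛ i)
  · exact fun s hs => hδ s hs
  · exact fun s hs => (hfib s hs).1
  · intro i s hs
    have h1 := hiter (orderOf Qp) i s hs
    rw [pow_orderOf_eq_one] at h1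
    have h2 : s + 2 * Real.pi * (orderOf Qp : ℕ) * Complex.I =
        s + (orderOf Qp : ℕ) * (2 * Real.pi * Complex.I) := by ring
    rw [h2, h1]
    rfl

theorem exists_endLift (hc : Cov Y pr δ e) (v : Fin k → ℂ) :
    ∃ (c : ℝ) (κ : ℕ) (Λ : Fin e → ℂ → (Fin m → ℂ)), EndLift Y pr δ e v c κ Λ := by
  obtain ⟨c, κ, Λ, h, -⟩ := exists_endLift' hc v
  exact ⟨c, κ, Λ, h⟩

end Pool.Agent.J4.H71.Gorin
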