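import Pool.Agent.J4.H71.Gorin.Cover

/-! Complements of zero sets in manifolds are connected. -/

set_option autoImplicit false
set_option maxHeartbeats 4000000

open Metric Set Topology Filter H113G

namespace Pool.Agent.J4.H71.Gorin

theorem isPreconnected_of_local {X : Type*} [TopologicalSpace X] {Y Y' : Set X}
    (hY : IsPreconnected Y) (hsub : Y' ⊆ Y) (hcl : Y ⊆ closure Y')
    (hloc : ∀ p ∈ Y, ∃ V ∈ 𝓝 p, IsPreconnected (Y' ∩ V)) : IsPreconnected Y' := by
  apply isPreconnected_of_forall_constant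
  intro f hf x hx y hy
  have hlim : ∀ p ∈ Y, ∃ c, Tendsto f (𝓝[Y'] p) (𝓝 c) := by
    intro p hp
    obtain ⟨V, hV, hVc⟩ := hloc p hp
    have hne : (Y' ∩ V).Nonempty := by
      have := mem_closure_iff_nhds.1 (hcl hp) V hV
      rwa [inter_comm] at this
    obtain ⟨a, ha⟩ := hne
    refine ⟨f a, ?_⟩
    refine tendsto_const_nhds.congr' ?_
    filter_upwards [self_mem_nhdsWithin, mem_nhdsWithin_of_mem_nhds hV] with b hb1 hb2
    exact hVc.constant (hf.mono inter_subset_left) ha ⟨hb1, hb2⟩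
  have hF := continuousOn_extendFrom hcl hlim
  rw [← extendFrom_extends hf x hx, ← extendFrom_extends hf y hy]
  exact hY.constant hF (hsub hx) (hsub hy)

/-- a punctured disc is preconnected -/
theorem isPreconnected_punctured (z : ℂ) (r : ℝ) :
    IsPreconnected (ball z r \ {z}) := by
  have : ball z r \ {z} = (fun p : ℝ × ℝ => z + p.1 * Complex.exp (p.2 * Complex.I)) ''
      (Ioo 0 r ×ˢ univ) := by
    ext w
    simp only [Set.mem_sdiff, mem_ball, dist_eq_norm, mem_singleton_iff, mem_image, mem_prod, mem_Ioo,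
      mem_univ, and_true, Prod.exists]
    constructor
    · rintro ⟨h1, h2⟩
      refine ⟨‖w - z‖, Complex.arg (w - z), ⟨norm_pos_iff.2 (sub_ne_zero.2 h2), h1⟩, ?_⟩
      rw [Complex.norm_mul_exp_arg_mul_I]
      ring
    · rintro ⟨s, θ, ⟨h1, h2⟩, rfl⟩
      have e : ‖(s : ℂ) * Complex.exp (θ * Complex.I)‖ = s := by
        rw [norm_mul, Complex.norm_exp_ofReal_mul_I, mul_one, Complex.norm_real,
          Real.norm_of_nonneg h1.le]
      refine ⟨by rw [add_sub_cancel_left, e]; exact h2, fun h => ?_⟩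
      have h3 : (s : ℂ) * Complex.exp (θ * Complex.I) = 0 := by
        simpa using h
      rw [h3, norm_zero] at e
      exact h1.ne e
  rw [this]
  refine ((isPreconnected_Ioo).prod isPreconnected_univ).image _ ?_
  fun_prop

/-- one variable: the complement of the zero set is preconnected -/
theorem isPreconnected_one {U : Set ℂ} (hU : IsOpen U) (hc : IsPreconnected U) {F : ℂ → ℂ}
    (hF : DifferentiableOn ℂ F U) (h : ∃ x ∈ U, F x ≠ 0) :
    IsPreconnected {x ∈ U | F x ≠ 0} := by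
  have hA : AnalyticOnNhd ℂ F U := hF.analyticOnNhd hU
  have hnz : ∀ p ∈ U, ∀ᶠ x in 𝓝[≠] p, F x ≠ 0 := by
    intro p hp
    rcases (hA p hp).eventually_eq_zero_or_eventually_ne_zero with h1 | h1
    · obtain ⟨x, hx, hx'⟩ := h
      exact absurd (hA.eqOn_zero_of_preconnected_of_eventuallyEq_zero hc hp h1 hx) hx'
    · exact h1
  refine isPreconnected_of_local hc (fun x hx => hx.1) ?_ ?_
  · intro p hp
    rw [mem_closure_iff_frequently]
    have h1 : ∀ᶠ x in 𝓝[≠] p, x ∈ {x ∈ U | F x ≠ 0} := by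
      filter_upwards [hnz p hp, mem_nhdsWithin_of_mem_nhds (hU.mem_nhds hp)] with x h1 h2
      exact ⟨h2, h1⟩
    exact (h1.frequently).filter_mono nhdsWithin_le_nhds
  · intro p hp
    have h1 := hnz p hp
    rw [eventually_nhdsWithin_iff] at h1
    obtain ⟨r, hr, hball⟩ := Metric.eventually_nhds_iff_ball.1 (h1.and (hU.mem_nhds hp))
    refine ⟨ball p r, ball_mem_nhds p hr, ?_⟩
    by_cases hFp : F p = 0
    · have : {x ∈ U | F x ≠ 0} ∩ ball p r = ball p r \ {p} := by
        ext x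
        simp only [mem_inter_iff, mem_ofPred_eq, Set.mem_sdiff, mem_singleton_iff]
        constructor
        · rintro ⟨⟨h2, h3⟩, h4⟩
          exact ⟨h4, fun h5 => h3 (h5 ▸ hFp)⟩
        · rintro ⟨h2, h3⟩
          exact ⟨⟨(hball x h2).2, (hball x h2).1 h3⟩, h2⟩
      rw [this]
      exact isPreconnected_punctured p r
    · have : {x ∈ U | F x ≠ 0} ∩ ball p r = ball p r := by
        ext x
        simp only [mem_inter_iff, mem_ofPred_eq]
        constructor
        · rintro ⟨_, h4⟩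
          exact h4
        · intro h2
          refine ⟨⟨(hball x h2).2, ?_⟩, h2⟩
          by_cases hxp : x = p
          · rw [hxp]; exact hFp
          · exact (hball x h2).1 hxp
      rw [this]
      exact (convex_ball p r).isPreconnected

section several
variable {n : ℕ} {f : (Fin n → ℂ) → ℂ}

theorem line_data {B : Set (Fin n → ℂ)} (hBo : IsOpen B) (hBc : Convex ℝ B)
    (hf : DifferentiableOn ℂ f B) (p q : Fin n → ℂ) :
    IsOpen {t : ℂ | p + t • (q - p) ∈ B} ∧ IsPreconnected {t : ℂ | p + t • (q - p) ∈ B} ∧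
    DifferentiableOn ℂ (fun t : ℂ => f (p + t • (q - p))) {t : ℂ | p + t • (q - p) ∈ B} := by
  have hc : Continuous (fun t : ℂ => p + t • (q - p)) := by fun_prop
  refine ⟨hBo.preimage hc, ?_, ?_⟩
  · refine Convex.isPreconnected ?_
    intro a ha b hb s t hs ht hst
    have := hBc ha hb hs ht hst
    have e : p + (s • a + t • b) • (q - p) =
        s • (p + a • (q - p)) + t • (p + b • (q - p)) := by
      ext j
      simp only [Pi.add_apply, Pi.smul_apply, smul_eq_mul, Complex.real_smul, Pi.sub_apply]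
      have : ((s : ℂ) + t) = 1 := by exact_mod_cast hst
      linear_combination (- p j) * this
    change p + (s • a + t • b) • (q - p) ∈ B
    rw [e]
    exact this
  · have hd : DifferentiableOn ℂ (fun t : ℂ => p + t • (q - p))
        {t : ℂ | p + t • (q - p) ∈ B} := by fun_prop
    exact hf.comp hd (fun t ht => ht)

/-- identity theorem on a convex open set -/
theorem eq_zero_of_eventually {B : Set (Fin n → ℂ)} (hBo : IsOpen B) (hBc : Convex ℝ B)
    (hf : DifferentiableOn ℂ f B) {p : Fin n → ℂ} (hp : p ∈ B) (h : ∀ᶠ x in 𝓝 p, f x = 0) :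
    ∀ q ∈ B, f q = 0 := by
  intro q hq
  obtain ⟨h1, h2, h3⟩ := line_data hBo hBc hf p q
  have h4 : AnalyticOnNhd ℂ (fun t : ℂ => f (p + t • (q - p))) {t : ℂ | p + t • (q - p) ∈ B} :=
    h3.analyticOnNhd h1
  have h5 : (fun t : ℂ => f (p + t • (q - p))) =ᶠ[𝓝 0] 0 := by
    have hc : Tendsto (fun t : ℂ => p + t • (q - p)) (𝓝 0) (𝓝 p) := by
      have : Continuous (fun t : ℂ => p + t • (q - p)) := by fun_prop
      have h := this.tendsto 0
      simpa using h
    exact hc.eventually h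
  have h6 := h4.eqOn_zero_of_preconnected_of_eventuallyEq_zero h2
    (show (0 : ℂ) ∈ {t : ℂ | p + t • (q - p) ∈ B} by simpa using hp) h5
    (show (1 : ℂ) ∈ {t : ℂ | p + t • (q - p) ∈ B} by simpa using hq)
  simpa using h6

theorem isPreconnected_compl_zero {B : Set (Fin n → ℂ)} (hBo : IsOpen B) (hBc : Convex ℝ B)
    (hf : DifferentiableOn ℂ f B) : IsPreconnected {x ∈ B | f x ≠ 0} := by
  refine isPreconnected_of_forall_pair ?_
  intro p hp q hq
  obtain ⟨h1, h2, h3⟩ := line_data hBo hBc hf p q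
  have h4 := isPreconnected_one h1 h2 h3
    ⟨0, by simpa using hp.1, by simpa using hp.2⟩
  refine ⟨(fun t : ℂ => p + t • (q - p)) '' {t ∈ {t : ℂ | p + t • (q - p) ∈ B} |
    f (p + t • (q - p)) ≠ 0}, ?_, ?_, ?_, ?_⟩
  · rintro _ ⟨t, ht, rfl⟩
    exact ⟨ht.1, ht.2⟩
  · exact ⟨0, ⟨by simpa using hp.1, by simpa using hp.2⟩, by simp⟩
  · exact ⟨1, ⟨by simpa using hq.1, by simpa using hq.2⟩, by simp⟩
  · refine h4.image _ (Continuous.continuousOn ?_)
    fun_prop

end several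

section charts
variable {m : ℕ} {Y : Set (Fin m → ℂ)} {G : (Fin m → ℂ) → ℂ}

/-- `Y ∩ {G ≠ 0}` is dense in `Y` -/
theorem dense_of_charts (hY : HasCharts Y) (hc : IsPreconnected Y) (hG : Differentiable ℂ G)
    (hne : ∃ y ∈ Y, G y ≠ 0) : Y ⊆ closure {y ∈ Y | G y ≠ 0} := by
  classical
  let A : Set (Fin m → ℂ) := {p | ∀ᶠ y in 𝓝[Y] p, G y = 0}
  have hconst : ∀ x ∈ Y, ∀ y ∈ Y, (decide (x ∈ A) : Bool) = decide (y ∈ A) := by
    intro x hx y hy
    refine hc.constant (f := fun x => (decide (x ∈ A) : Bool)) ?_ hx hy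
    intro p hp
    obtain ⟨n, ψ, κ, V, hVo, hpV, -, hψ, hψ0, hψY, -, -⟩ := hY p hp univ univ_mem
    have key : ∀ p' ∈ Y, p' ∈ V → (p' ∈ A ↔ ∀ x ∈ ball (0 : Fin n → ℂ) 1, G (ψ x) = 0) := by
      intro p' hp' hp'V
      have hmem : p' ∈ ψ '' ball 0 1 := by rw [hψY]; exact ⟨hp', hp'V⟩
      obtain ⟨x', hx', rfl⟩ := hmem
      constructor
      · intro hA
        have hGψ : DifferentiableOn ℂ (fun x => G (ψ x)) (ball (0 : Fin n → ℂ) 1) :=
          hG.comp_differentiableOn hψ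
        refine eq_zero_of_eventually isOpen_ball (convex_ball _ _) hGψ hx' ?_
        have h1 : Tendsto ψ (𝓝 x') (𝓝[Y] (ψ x')) := by
          refine tendsto_nhdsWithin_iff.2 ⟨?_, ?_⟩
          · exact (hψ.continuousOn.continuousAt (isOpen_ball.mem_nhds hx'))
          · filter_upwards [isOpen_ball.mem_nhds hx'] with x hx
            have : ψ x ∈ Y ∩ V := by rw [← hψY]; exact ⟨x, hx, rfl⟩
            exact this.1
        exact h1.eventually hA
      · intro h
        filter_upwards [self_mem_nhdsWithin, mem_nhdsWithin_of_mem_nhds (hVo.mem_nhds hp'V)]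
          with y hy hyV
        have : y ∈ ψ '' ball 0 1 := by rw [hψY]; exact ⟨hy, hyV⟩
        obtain ⟨x, hx, rfl⟩ := this
        exact h x hx
    refine tendsto_const_nhds.congr' ?_
    filter_upwards [self_mem_nhdsWithin, mem_nhdsWithin_of_mem_nhds (hVo.mem_nhds hpV)]
      with y hy hyV
    have : (p ∈ A) ↔ (y ∈ A) := (key p hp hpV).trans (key y hy hyV).symm
    simp only [this]
  obtain ⟨y₀, hy₀, hy₀'⟩ := hne
  have hy₀A : y₀ ∉ A := by
    intro h
    exact hy₀' (h.self_of_nhdsWithin hy₀)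
  intro p hp
  have hpA : p ∉ A := by
    have := hconst p hp y₀ hy₀
    simp only [decide_eq_decide] at this
    exact fun h => hy₀A (this.1 h)
  have h1 : ∃ᶠ y in 𝓝[Y] p, G y ≠ 0 :=
    fun h => hpA (h.mono (fun y hy => not_not.1 hy))
  rw [mem_closure_iff_frequently]
  have h2 : ∃ᶠ y in 𝓝[Y] p, y ∈ {y ∈ Y | G y ≠ 0} :=
    (h1.and_eventually self_mem_nhdsWithin).mono (fun y hy => ⟨hy.2, hy.1⟩)
  exact h2.filter_mono nhdsWithin_le_nhds

/-- `Y ∩ {G ≠ 0}` is locally connected in `Y` -/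
theorem local_of_charts (hY : HasCharts Y) (hG : Differentiable ℂ G) :
    ∀ p ∈ Y, ∀ N ∈ 𝓝 p, ∃ V ∈ 𝓝 p, V ⊆ N ∧ IsPreconnected ({y ∈ Y | G y ≠ 0} ∩ V) := by
  intro p hp N hN
  obtain ⟨n, ψ, κ, V, hVo, hpV, hVN, hψ, hψ0, hψY, -, -⟩ := hY p hp N hN
  refine ⟨V, hVo.mem_nhds hpV, hVN, ?_⟩
  have hGψ : DifferentiableOn ℂ (fun x => G (ψ x)) (ball (0 : Fin n → ℂ) 1) :=
    hG.comp_differentiableOn hψ
  have h1 := isPreconnected_compl_zero isOpen_ball (convex_ball _ _) hGψ
  have h2 : {y ∈ Y | G y ≠ 0} ∩ V = ψ '' {x ∈ ball (0 : Fin n → ℂ) 1 | G (ψ x) ≠ 0} := by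
    ext y
    constructor
    · rintro ⟨⟨h3, h4⟩, h5⟩
      have : y ∈ ψ '' ball 0 1 := by rw [hψY]; exact ⟨h3, h5⟩
      obtain ⟨x, hx, rfl⟩ := this
      exact ⟨x, ⟨hx, h4⟩, rfl⟩
    · rintro ⟨x, ⟨hx, h4⟩, rfl⟩
      have : ψ x ∈ Y ∩ V := by rw [← hψY]; exact ⟨x, hx, rfl⟩
      exact ⟨⟨this.1, h4⟩, this.2⟩
  rw [h2]
  exact h1.image _ (hψ.continuousOn.mono (fun x hx => hx.1))

theorem isPreconnected_of_charts (hY : HasCharts Y) (hc : IsPreconnected Y)
    (hG : Differentiable ℂ G) (hne : ∃ y ∈ Y, G y ≠ 0) :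
    IsPreconnected {y ∈ Y | G y ≠ 0} := by
  refine isPreconnected_of_local hc (fun y hy => hy.1) (dense_of_charts hY hc hG hne) ?_
  intro p hp
  obtain ⟨V, hV, -, h⟩ := local_of_charts hY hG p hp univ univ_mem
  exact ⟨V, hV, h⟩

end charts

end Pool.Agent.J4.H71.Gorin
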