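import Pool.Agent.J4.H71.Gorin.Cover

/-! Finite rank of the part of `Y` over a line. -/

set_option autoImplicit false
set_option maxHeartbeats 4000000

open Metric Set Topology Filter H113G

namespace Pool.Agent.J4.H71.Gorin

theorem const_of_exp_one {X : Type*} [TopologicalSpace X] {S : Set X} (hS : IsPreconnected S)
    {D : X → ℂ} (hD : ContinuousOn D S) (h : ∀ x ∈ S, Complex.exp (D x) = 1) :
    ∀ x ∈ S, ∀ y ∈ S, D x = D y := by
  intro x hx y hy
  refine hS.constant_of_mapsTo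
    (T := (AddSubgroup.zmultiples (2 * Real.pi * Complex.I : ℂ) : Set ℂ)) ?_ hD ?_ hx hy
  · exact ⟨NormedSpace.discreteTopology_zmultiples _⟩
  · intro z hz
    have h1 := h z hz
    rw [← Complex.exp_zero, Complex.exp_eq_exp_iff_exists_int] at h1
    obtain ⟨n, hn⟩ := h1
    refine AddSubgroup.mem_zmultiples_iff.2 ⟨n, ?_⟩
    rw [hn, zero_add, zsmul_eq_mul]

theorem exists_int_relation {κ : Type*} [Fintype κ] (n : Fin (Fintype.card κ + 1) → κ → ℤ) :
    ∃ a : Fin (Fintype.card κ + 1) → ℤ, a ≠ 0 ∧ ∀ c, ∑ l, a l * n l c = 0 := by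
  classical
  have h1 : ¬ LinearIndependent ℤ n := by
    intro h
    have := h.fintype_card_le_finrank
    simp at this
  rw [Fintype.not_linearIndependent_iff] at h1
  obtain ⟨a, ha, i, hi⟩ := h1
  refine ⟨a, fun h => hi (by rw [h]; rfl), fun c => ?_⟩
  have := congrFun ha c
  simpa [Finset.sum_apply] using this

/-- finite rank from a finite good cover -/
theorem finiteRank_of_goodCover {E : Type*} [TopologicalSpace E] (A : Set E) {ι : Type*}
    [Fintype ι] (U : ι → Set E) (hUo : ∀ i, ∀ x ∈ A ∩ U i, U i ∈ 𝓝[A] x)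
    (hcov : ∀ x ∈ A, ∃ i, x ∈ U i)
    (hlog : ∀ i, ∀ g : E → ℂ, ContinuousOn g A → (∀ y ∈ A, g y ≠ 0) → HasLog (A ∩ U i) g)
    (hC : ∀ i j, IsPreconnected (A ∩ U i ∩ U j)) :
    FiniteRank A (Fintype.card (ι × ι)) := by
  classical
  intro g hg hg0
  choose L hL hLe using fun i l => hlog i (g l) (hg l) (hg0 l)
  -- integers
  have hn : ∀ l (c : ι × ι), ∃ n : ℤ, ∀ x ∈ A ∩ U c.1 ∩ U c.2,
      L c.1 l x - L c.2 l x = n * (2 * Real.pi * Complex.I) := by
    intro l c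
    have hex : ∀ x ∈ A ∩ U c.1 ∩ U c.2, Complex.exp (L c.1 l x - L c.2 l x) = 1 := by
      intro x hx
      rw [Complex.exp_sub, hLe c.1 l x ⟨hx.1.1, hx.1.2⟩, hLe c.2 l x ⟨hx.1.1, hx.2⟩]
      exact div_self (hg0 l x hx.1.1)
    rcases (A ∩ U c.1 ∩ U c.2).eq_empty_or_nonempty with h | ⟨x₀, hx₀⟩
    · exact ⟨0, fun x hx => by rw [h] at hx; exact absurd hx (notMem_empty x)⟩
    · have h1 := hex x₀ hx₀
      rw [← Complex.exp_zero, Complex.exp_eq_exp_iff_exists_int] at h1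
      obtain ⟨n, hn⟩ := h1
      refine ⟨n, fun x hx => ?_⟩
      rw [zero_add] at hn
      rw [← hn]
      refine const_of_exp_one (D := fun x => L c.1 l x - L c.2 l x) (hC c.1 c.2) ?_ hex x hx x₀ hx₀
      refine ContinuousOn.sub ((hL c.1 l).mono ?_) ((hL c.2 l).mono ?_)
      · exact fun y hy => ⟨hy.1.1, hy.1.2⟩
      · exact fun y hy => ⟨hy.1.1, hy.2⟩
  choose n hn using hn
  obtain ⟨a, ha, hrel⟩ := exists_int_relation n
  refine ⟨a, ha, ?_⟩
  rcases isEmpty_or_nonempty ι with hι | hι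
  · exact ⟨fun _ => 0, fun x hx => hι.elim (hcov x hx).choose,
      fun x hx => hι.elim (hcov x hx).choose⟩
  choose! idx hidx using hcov
  have hov : ∀ i j, ∀ x ∈ A ∩ U i ∩ U j, ∑ l, (a l : ℂ) * L i l x = ∑ l, (a l : ℂ) * L j l x := by
    intro i j x hx
    rw [← sub_eq_zero, ← Finset.sum_sub_distrib]
    have h1 : ∀ l, (a l : ℂ) * L i l x - (a l : ℂ) * L j l x =
        ((a l * n l (i, j) : ℤ) : ℂ) * (2 * Real.pi * Complex.I) := by
      intro l
      rw [← mul_sub, hn l (i, j) x hx]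
      push_cast; ring
    simp_rw [h1]
    rw [← Finset.sum_mul, ← Int.cast_sum, hrel (i, j)]
    simp
  refine ⟨fun x => ∑ l, (a l : ℂ) * L (idx x) l x, ?_, ?_⟩
  · intro x hx
    have hi := hidx x hx
    have h1 : ContinuousWithinAt (fun y => ∑ l, (a l : ℂ) * L (idx x) l y) (A ∩ U (idx x)) x := by
      have h2 : ContinuousOn (fun y => ∑ l, (a l : ℂ) * L (idx x) l y) (A ∩ U (idx x)) :=
        continuousOn_finsetSum _ fun l _ => continuousOn_const.mul (hL (idx x) l)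
      exact h2 x ⟨hx, hi⟩
    have h3 := hUo (idx x) x ⟨hx, hi⟩
    have h4 : ContinuousWithinAt (fun y => ∑ l, (a l : ℂ) * L (idx x) l y) A x := by
      rw [ContinuousWithinAt] at h1 ⊢
      rwa [nhdsWithin_inter_of_mem' (s := A) h3] at h1
    refine h4.congr_of_eventuallyEq ?_ rfl
    filter_upwards [self_mem_nhdsWithin, h3] with y hy hy'
    exact hov _ _ y ⟨⟨hy, hidx y hy⟩, hy'⟩
  · intro x hx
    rw [Complex.exp_sum]
    refine Finset.prod_congr rfl fun l _ => ?_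
    rw [Complex.exp_int_mul, hLe (idx x) l x ⟨hx, hidx x hx⟩]

section
variable {m k : ℕ} {Y : Set (Fin m → ℂ)} {pr : (Fin m → ℂ) → (Fin k → ℂ)}
  {δ : MvPolynomial (Fin k) ℂ} {e : ℕ}

/-- the part of `Y` over the line of `v`, with the parameter -/
def LineSet (Y : Set (Fin m → ℂ)) (pr : (Fin m → ℂ) → (Fin k → ℂ))
    (δ : MvPolynomial (Fin k) ℂ) (v : Fin k → ℂ) : Set (ℂ × (Fin m → ℂ)) :=
  {x | x.2 ∈ Y ∧ pr x.2 = x.1 • v ∧ MvPolynomial.eval (x.1 • v) δ ≠ 0}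

/-- continuous section over a subset of the line -/
def Sec (Y : Set (Fin m → ℂ)) (pr : (Fin m → ℂ) → (Fin k → ℂ)) (v : Fin k → ℂ) (K : Set ℂ)
    (s : ℂ → (Fin m → ℂ)) : Prop :=
  ContinuousOn s K ∧ ∀ t ∈ K, s t ∈ Y ∧ pr (s t) = t • v

theorem cov_one (hc : Cov Y pr δ e) : IsCoveringMap (qW Y pr δ (fun _ => (1 : ℂ))) :=
  isCoveringMap_qW hc _ continuousOn_const (fun _ _ => one_ne_zero)

theorem sec_unique (hc : Cov Y pr δ e) (v : Fin k → ℂ) {K : Set ℂ} (hK : IsPreconnected K)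
    (hδ : ∀ t ∈ K, MvPolynomial.eval (t • v) δ ≠ 0) {s s' : ℂ → (Fin m → ℂ)}
    (hs : Sec Y pr v K s) (hs' : Sec Y pr v K s') {t₀ : ℂ} (ht₀ : t₀ ∈ K) (h : s t₀ = s' t₀) :
    ∀ t ∈ K, s t = s' t := by
  intro t ht
  have : PreconnectedSpace K := isPreconnected_iff_preconnectedSpace.1 hK
  let F : K → Wg Y pr δ (fun _ => (1 : ℂ)) := fun t => ⟨(s t, 0), (hs.2 t t.2).1, by
    change MvPolynomial.eval (pr (s t)) δ ≠ 0
    rw [(hs.2 t t.2).2]; exact hδ t t.2, by simp⟩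
  let F' : K → Wg Y pr δ (fun _ => (1 : ℂ)) := fun t => ⟨(s' t, 0), (hs'.2 t t.2).1, by
    change MvPolynomial.eval (pr (s' t)) δ ≠ 0
    rw [(hs'.2 t t.2).2]; exact hδ t t.2, by simp⟩
  have hF : Continuous F := by
    refine Continuous.subtype_mk (Continuous.prodMk ?_ continuous_const) _
    exact continuousOn_iff_continuous_domRestrict.1 hs.1
  have hF' : Continuous F' := by
    refine Continuous.subtype_mk (Continuous.prodMk ?_ continuous_const) _
    exact continuousOn_iff_continuous_domRestrict.1 hs'.1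
  have heq : F = F' := by
    refine (cov_one hc).eq_of_comp_eq hF hF' ?_ ⟨t₀, ht₀⟩ ?_
    · funext t
      refine Subtype.ext ?_
      change pr (s t) = pr (s' t)
      rw [(hs.2 t t.2).2, (hs'.2 t t.2).2]
    · refine Subtype.ext ?_
      change (s t₀, (0 : ℂ)) = (s' t₀, 0)
      rw [h]
  have := congrArg (fun w : Wg Y pr δ (fun _ => (1 : ℂ)) => w.1.1) (congrFun heq ⟨t, ht⟩)
  exact this

theorem exists_sec (hc : Cov Y pr δ e) (v : Fin k → ℂ) {K : Set ℂ} (hK : Convex ℝ K)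
    (hKo : IsOpen K) (hδ : ∀ t ∈ K, MvPolynomial.eval (t • v) δ ≠ 0) {t₀ : ℂ} (ht₀ : t₀ ∈ K)
    {y₀ : Fin m → ℂ} (hy₀ : y₀ ∈ Y) (hpy : pr y₀ = t₀ • v) :
    ∃ s : ℂ → (Fin m → ℂ), Sec Y pr v K s ∧ s t₀ = y₀ := by
  classical
  have : ContractibleSpace K := hK.contractibleSpace ⟨t₀, ht₀⟩
  have : LocallyPathConnectedSpace K := hKo.locallyPathConnectedSpace
  let f : C(K, Sp δ) := ⟨fun t => ⟨(t : ℂ) • v, hδ t t.2⟩,
    (continuous_subtype_val.smul continuous_const).subtype_mk _⟩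
  obtain ⟨F, ⟨hF0, hF⟩, -⟩ := (cov_one hc).existsUnique_continuousMap_lifts f ⟨t₀, ht₀⟩
    ⟨(y₀, 0), hy₀, by rw [hpy]; exact hδ t₀ ht₀, by simp⟩ (Subtype.ext hpy)
  refine ⟨fun t => if ht : t ∈ K then (F ⟨t, ht⟩).1.1 else 0, ⟨?_, ?_⟩, ?_⟩
  · rw [continuousOn_iff_continuous_domRestrict]
    have h1 : Continuous (fun t : K => (F t).1.1) :=
      continuous_fst.comp (continuous_subtype_val.comp F.continuous)
    convert h1 using 1
    ext t
    simp
  · intro t ht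
    have h1 : pr (F ⟨t, ht⟩).1.1 = t • v := congrArg Subtype.val (congrFun hF ⟨t, ht⟩)
    simp only [ht, dif_pos]
    exact ⟨(F ⟨t, ht⟩).2.1, h1⟩
  · simp only [ht₀, dif_pos]
    rw [hF0]

/-- all sections over a convex open set -/
theorem exists_secs (hc : Cov Y pr δ e) (v : Fin k → ℂ) {K : Set ℂ} (hK : Convex ℝ K)
    (hKo : IsOpen K) (hδ : ∀ t ∈ K, MvPolynomial.eval (t • v) δ ≠ 0) :
    ∃ s : Fin e → ℂ → (Fin m → ℂ), (∀ i, Sec Y pr v K (s i)) ∧
      ∀ x : ℂ × (Fin m → ℂ), x ∈ LineSet Y pr δ v → x.1 ∈ K → ∃ i, x.2 = s i x.1 := by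
  classical
  rcases K.eq_empty_or_nonempty with h | ⟨t₀, ht₀⟩
  · subst h
    exact ⟨fun _ _ => 0, fun i => ⟨continuousOn_empty _, fun t ht => absurd ht (notMem_empty t)⟩,
      fun x _ hx => absurd hx (notMem_empty _)⟩
  · obtain ⟨r, hr, σ, -, hσ⟩ := hc.sections (t₀ • v) (hδ t₀ ht₀)
    have hσ0 := hσ (t₀ • v) (mem_ball_self hr)
    have hmem : ∀ i, σ i (t₀ • v) ∈ {y | y ∈ Y ∧ pr y = t₀ • v} := by
      intro i; rw [hσ0.2.2]; exact ⟨i, rfl⟩
    choose s hs hs0 using fun i => exists_sec hc v hK hKo hδ ht₀ (hmem i).1 (hmem i).2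
    refine ⟨s, hs, ?_⟩
    rintro ⟨t, y⟩ hx ht
    obtain ⟨s', hs', hs'0⟩ := exists_sec hc v hK hKo hδ ht hx.1 hx.2.1
    have h1 : s' t₀ ∈ {y | y ∈ Y ∧ pr y = t₀ • v} := hs'.2 t₀ ht₀
    rw [hσ0.2.2] at h1
    obtain ⟨i, hi⟩ := h1
    refine ⟨i, ?_⟩
    have h2 := sec_unique hc v hK.isPreconnected hδ (hs i) hs' ht₀ ((hs0 i).trans hi) t ht
    rw [← hs'0]
    exact h2.symm

/-- four directions -/
noncomputable def dir (j : Fin 4) : ℂ := ![1, -1, Complex.I, -Complex.I] j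

/-- intersection of half planes -/
def HP {N : ℕ} (b : Fin N → ℂ) (φ : Fin N → Fin 4) : Set ℂ :=
  {t | ∀ i, 0 < (dir (φ i) * (t - b i)).re}

theorem HP_open {N : ℕ} (b : Fin N → ℂ) (φ : Fin N → Fin 4) : IsOpen (HP b φ) := by
  have : HP b φ = ⋂ i, {t | 0 < (dir (φ i) * (t - b i)).re} := by
    ext t; simp [HP]
  rw [this]
  refine isOpen_iInter_of_finite fun i => ?_
  exact isOpen_lt continuous_const (by fun_prop)

theorem HP_convex {N : ℕ} (b : Fin N → ℂ) (φ : Fin N → Fin 4) : Convex ℝ (HP b φ) := by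
  intro x hx y hy s t hs ht hst i
  have e : dir (φ i) * (s • x + t • y - b i) =
      s • (dir (φ i) * (x - b i)) + t • (dir (φ i) * (y - b i)) := by
    simp only [Complex.real_smul]
    have : ((s : ℂ) + t) = 1 := by exact_mod_cast hst
    linear_combination (dir (φ i) * b i) * this
  rw [e, Complex.add_re, Complex.smul_re, Complex.smul_re, smul_eq_mul, smul_eq_mul]
  have h1 := hx i
  have h2 := hy i
  rcases hs.eq_or_lt with h | h
  · rw [← h] at hst ⊢
    have : t = 1 := by linarith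
    rw [this]; linarith
  · have := mul_pos h h1
    have := mul_nonneg ht h2.le
    linarith

theorem HP_cover {N : ℕ} (b : Fin N → ℂ) (t : ℂ) (ht : ∀ i, t ≠ b i) :
    ∃ φ, t ∈ HP b φ := by
  have : ∀ i, ∃ j : Fin 4, 0 < (dir j * (t - b i)).re := by
    intro i
    have h1 : t - b i ≠ 0 := sub_ne_zero.2 (ht i)
    rcases lt_trichotomy (t - b i).re 0 with h | h | h
    · exact ⟨1, by simpa [dir] using h⟩
    · rcases lt_trichotomy (t - b i).im 0 with h' | h' | h'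
      · exact ⟨2, by simpa [dir] using h'⟩
      · exact absurd (Complex.ext h h') h1
      · exact ⟨3, by simpa [dir] using h'⟩
    · exact ⟨0, by simpa [dir] using h⟩
  choose φ hφ using this
  exact ⟨φ, hφ⟩

theorem HP_ne {N : ℕ} (b : Fin N → ℂ) (φ : Fin N → Fin 4) {t : ℂ} (ht : t ∈ HP b φ) (i : Fin N) :
    t ≠ b i := by
  rintro rfl
  have := ht i
  simp at this

/-- the part of `Y` over a line has finite rank -/
theorem finiteRank_lineSet (hc : Cov Y pr δ e) (v : Fin k → ℂ) (hv : RootStable δ v) :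
    ∃ s : ℕ, FiniteRank (LineSet Y pr δ v) s := by
  classical
  obtain ⟨N, b, -, hb, -⟩ := hv
  have hδ : ∀ φ, ∀ t ∈ HP b φ, MvPolynomial.eval (t • v) δ ≠ 0 := by
    intro φ t ht h
    obtain ⟨i, hi⟩ := (hb t).1 h
    exact HP_ne b φ ht i hi
  choose s hs hcov using fun φ => exists_secs hc v (HP_convex b φ) (HP_open b φ) (hδ φ)
  let U : (Fin N → Fin 4) × Fin e → Set (ℂ × (Fin m → ℂ)) := fun p =>
    {x | x.1 ∈ HP b p.1 ∧ x.2 = s p.1 p.2 x.1}
  refine ⟨_, finiteRank_of_goodCover (LineSet Y pr δ v) U ?_ ?_ ?_ ?_⟩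
  · rintro ⟨φ, i⟩ x ⟨hxA, hx1, hx2⟩
    simp only at hx1 hx2
    have hopen : ∀ᶠ y : ℂ × (Fin m → ℂ) in 𝓝[LineSet Y pr δ v] x, y.1 ∈ HP b φ :=
      mem_nhdsWithin_of_mem_nhds ((HP_open b φ).preimage continuous_fst |>.mem_nhds hx1)
    have hsep : ∀ j, ∀ᶠ y : ℂ × (Fin m → ℂ) in 𝓝[LineSet Y pr δ v] x,
        y.1 ∈ HP b φ → y.2 = s φ j y.1 → y.2 = s φ i y.1 := by
      intro j
      by_cases hj : s φ j x.1 = x.2
      · refine Eventually.of_forall fun y hy hy' => ?_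
        rw [hy']
        exact sec_unique hc v (HP_convex b φ).isPreconnected (hδ φ) (hs φ j) (hs φ i) hx1
          (hj.trans hx2) y.1 hy
      · have hcont : ContinuousAt (fun y : ℂ × (Fin m → ℂ) => s φ j y.1) x := by
          have h1 : ContinuousAt (s φ j) x.1 :=
            (hs φ j).1.continuousAt ((HP_open b φ).mem_nhds hx1)
          exact h1.comp continuousAt_fst
        have h2 : ∀ᶠ y : ℂ × (Fin m → ℂ) in 𝓝 x, s φ j y.1 ≠ y.2 := by
          have h3 : ContinuousAt (fun y : ℂ × (Fin m → ℂ) => s φ j y.1 - y.2) x :=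
            hcont.sub continuousAt_snd
          filter_upwards [h3.eventually_ne (sub_ne_zero.2 hj)] with y hy
          exact sub_ne_zero.1 hy
        filter_upwards [mem_nhdsWithin_of_mem_nhds h2] with y hy _ hy'
        exact absurd hy'.symm hy
    filter_upwards [hopen, eventually_all.2 hsep, self_mem_nhdsWithin] with y h1 h2 h3
    obtain ⟨j, hj⟩ := hcov φ y h3 h1
    exact ⟨h1, h2 j h1 hj⟩
  · intro x hx
    have h1 : ∀ i, x.1 ≠ b i := by
      intro i hi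
      exact hx.2.2 ((hb x.1).2 ⟨i, hi⟩)
    obtain ⟨φ, hφ⟩ := HP_cover b x.1 h1
    obtain ⟨i, hi⟩ := hcov φ x hx hφ
    exact ⟨(φ, i), hφ, hi⟩
  · rintro ⟨φ, i⟩ g hg hg0
    have hmaps : ∀ t ∈ HP b φ, (t, s φ i t) ∈ LineSet Y pr δ v := by
      intro t ht
      exact ⟨((hs φ i).2 t ht).1, ((hs φ i).2 t ht).2, hδ φ t ht⟩
    obtain ⟨L, hL, hLe⟩ := exists_log_convex (HP_convex b φ) (HP_open b φ)
      (fun t => g (t, s φ i t))
      (hg.comp (continuousOn_id.prodMk (hs φ i).1) hmaps)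
      (fun t ht => hg0 _ (hmaps t ht))
    refine ⟨fun x => L x.1, ?_, ?_⟩
    · exact hL.comp continuousOn_fst (fun x hx => hx.2.1)
    · rintro x ⟨hx, hx1, hx2⟩
      simp only at hx1 hx2
      rw [hLe x.1 hx1, ← hx2]
  · rintro ⟨φ, i⟩ ⟨φ', i'⟩
    rcases (LineSet Y pr δ v ∩ U (φ, i) ∩ U (φ', i')).eq_empty_or_nonempty with h | ⟨x₀, hx₀⟩
    · rw [h]; exact isPreconnected_empty
    · obtain ⟨⟨hA, h1, h2⟩, h3, h4⟩ := hx₀
      simp only at h1 h2 h3 h4
      have hconv : Convex ℝ (HP b φ ∩ HP b φ') := (HP_convex b φ).inter (HP_convex b φ')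
      have hsame : ∀ t ∈ HP b φ ∩ HP b φ', s φ i t = s φ' i' t := by
        refine sec_unique hc v hconv.isPreconnected (fun t ht => hδ φ t ht.1)
          ⟨(hs φ i).1.mono inter_subset_left, fun t ht => (hs φ i).2 t ht.1⟩
          ⟨(hs φ' i').1.mono inter_subset_right, fun t ht => (hs φ' i').2 t ht.2⟩
          (t₀ := x₀.1) ⟨h1, h3⟩ (h2.symm.trans h4)
      have himg : LineSet Y pr δ v ∩ U (φ, i) ∩ U (φ', i') =
          (fun t => (t, s φ i t)) '' (HP b φ ∩ HP b φ') := by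
        ext x
        constructor
        · rintro ⟨⟨g1, g2, g3⟩, g4, g5⟩
          simp only at g2 g3 g4 g5
          exact ⟨x.1, ⟨g2, g4⟩, Prod.ext rfl g3.symm⟩
        · rintro ⟨t, ht, rfl⟩
          refine ⟨⟨⟨((hs φ i).2 t ht.1).1, ((hs φ i).2 t ht.1).2, hδ φ t ht.1⟩, ht.1, rfl⟩,
            ht.2, ?_⟩
          exact hsame t ht
      rw [himg]
      refine hconv.isPreconnected.image _ ?_
      exact continuousOn_id.prodMk ((hs φ i).1.mono inter_subset_left)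

end

end Pool.Agent.J4.H71.Gorin
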