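import Pool.Agent.J4.H71.Gorin.Cover

/-! The generic line is root stable. -/

set_option autoImplicit false
set_option maxHeartbeats 4000000

open Metric Set Topology Filter H113G

namespace Pool.Agent.J4.H71.Gorin

theorem clear_den {A : Type*} [CommRing A] [IsDomain A] (Q : Polynomial (FractionRing A)) :
    ∃ b : A, b ≠ 0 ∧ ∃ Q₀ : Polynomial A, Q₀.map (algebraMap A (FractionRing A)) =
      Polynomial.C (algebraMap A (FractionRing A) b) * Q := by
  obtain ⟨b, hb, h⟩ := IsLocalization.integerNormalization_spec (nonZeroDivisors A) Q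
  refine ⟨b, nonZeroDivisors.ne_zero hb, _, h.trans ?_⟩
  rw [Polynomial.C_mul', algebraMap_smul]

/-- squarefree model of a polynomial over a domain, with cleared denominators -/
theorem exists_squarefree_model {A : Type*} [CommRing A] [IsDomain A] [CharZero A]
    (P : Polynomial A) (hP : P ≠ 0) :
    ∃ (S H W U V : Polynomial A) (c₁ c₂ c₃ c₄ : A) (n : ℕ), S ≠ 0 ∧ c₁ ≠ 0 ∧ c₂ ≠ 0 ∧ c₃ ≠ 0 ∧
      c₄ ≠ 0 ∧ Polynomial.C c₁ * P = S * H ∧ Polynomial.C c₂ * S ^ n = Polynomial.C c₃ * P * W ∧
      U * S + V * S.derivative = Polynomial.C c₄ := by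
  classical
  set ι := algebraMap A (FractionRing A) with hι
  have hinj : Function.Injective ι := IsFractionRing.injective A (FractionRing A)
  have hminj : Function.Injective (Polynomial.map ι) := Polynomial.map_injective ι hinj
  have : CharZero (FractionRing A) := charZero_of_injective_algebraMap hinj
  have hPK : P.map ι ≠ 0 := by
    rwa [Ne, Polynomial.map_eq_zero_iff hinj]
  set S := UniqueFactorizationMonoid.radical (P.map ι) with hS
  have hS0 : S ≠ 0 := UniqueFactorizationMonoid.radical_ne_zero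
  obtain ⟨H, hH⟩ : S ∣ P.map ι := UniqueFactorizationMonoid.radical_dvd_self
  obtain ⟨n, W, hW⟩ := UniqueFactorizationMonoid.exists_dvd_radical_self_pow hPK
  have hsep : S.Separable := PerfectField.separable_iff_squarefree.2
    UniqueFactorizationMonoid.squarefree_radical
  obtain ⟨U, V, hUV⟩ := hsep
  obtain ⟨bS, hbS, S₀, hS₀⟩ := clear_den S
  obtain ⟨bH, hbH, H₀, hH₀⟩ := clear_den H
  obtain ⟨bW, hbW, W₀, hW₀⟩ := clear_den W
  obtain ⟨bU, hbU, U₀, hU₀⟩ := clear_den U
  obtain ⟨bV, hbV, V₀, hV₀⟩ := clear_den V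
  refine ⟨S₀, H₀, W₀, Polynomial.C bV * U₀, Polynomial.C bU * V₀, bS * bH, bW, bS ^ n,
    bU * bV * bS, n, ?_, mul_ne_zero hbS hbH, hbW, pow_ne_zero _ hbS,
    mul_ne_zero (mul_ne_zero hbU hbV) hbS, ?_, ?_, ?_⟩
  · intro h
    rw [h, Polynomial.map_zero] at hS₀
    have h1 : Polynomial.C (ι bS) ≠ 0 := by
      rw [Ne, Polynomial.C_eq_zero]
      exact (map_ne_zero_iff ι hinj).2 hbS
    exact (mul_ne_zero h1 hS0) hS₀.symm
  · apply hminj
    rw [Polynomial.map_mul, Polynomial.map_mul, Polynomial.map_C, hS₀, hH₀, hH, map_mul, map_mul]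
    ring
  · apply hminj
    rw [Polynomial.map_mul, Polynomial.map_mul, Polynomial.map_mul, Polynomial.map_pow,
      Polynomial.map_C, Polynomial.map_C, hS₀, hW₀, mul_pow]
    change Polynomial.C (ι bW) * (Polynomial.C (ι bS) ^ n *
      UniqueFactorizationMonoid.radical (P.map ι) ^ n) = _
    rw [hW, map_pow, map_pow]
    ring
  · apply hminj
    rw [Polynomial.map_add, Polynomial.map_mul, Polynomial.map_mul, Polynomial.map_mul,
      Polynomial.map_mul, ← Polynomial.derivative_map, Polynomial.map_C, Polynomial.map_C,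
      Polynomial.map_C, hS₀, hU₀, hV₀, Polynomial.derivative_C_mul]
    calc _ = Polynomial.C (ι bU) * Polynomial.C (ι bV) * Polynomial.C (ι bS) *
          (U * S + V * Polynomial.derivative S) := by ring
      _ = _ := by rw [hUV, mul_one, ι.map_mul, ι.map_mul, Polynomial.C_mul, Polynomial.C_mul]


/-- `δ (T z)` as a polynomial in `T` -/
noncomputable def lineP {k : ℕ} (δ : MvPolynomial (Fin k) ℂ) :
    Polynomial (MvPolynomial (Fin k) ℂ) :=
  MvPolynomial.aeval (fun i => Polynomial.X * Polynomial.C (MvPolynomial.X i)) δ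

/-- evaluation at `(z, t)` -/
noncomputable def ev {k : ℕ} (z : Fin k → ℂ) (t : ℂ) :
    Polynomial (MvPolynomial (Fin k) ℂ) →+* ℂ :=
  (Polynomial.evalRingHom t).comp (Polynomial.mapRingHom (MvPolynomial.eval z))

theorem ev_apply {k : ℕ} (z : Fin k → ℂ) (t : ℂ) (Q : Polynomial (MvPolynomial (Fin k) ℂ)) :
    ev z t Q = (Q.map (MvPolynomial.eval z)).eval t := rfl

theorem ev_C {k : ℕ} (z : Fin k → ℂ) (t : ℂ) (a : MvPolynomial (Fin k) ℂ) :
    ev z t (Polynomial.C a) = MvPolynomial.eval z a := by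
  simp [ev_apply]

theorem ev_lineP {k : ℕ} (δ : MvPolynomial (Fin k) ℂ) (z : Fin k → ℂ) (t : ℂ) :
    ev z t (lineP δ) = MvPolynomial.eval (t • z) δ := by
  have : (ev z t).comp ((MvPolynomial.aeval (fun i : Fin k => (Polynomial.X *
      Polynomial.C (MvPolynomial.X i) : Polynomial (MvPolynomial (Fin k) ℂ)))).toRingHom :
      MvPolynomial (Fin k) ℂ →+* Polynomial (MvPolynomial (Fin k) ℂ)) =
      MvPolynomial.eval (t • z) := by
    apply MvPolynomial.ringHom_ext
    · intro r
      simp [ev_apply]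
    · intro i
      simp only [RingHom.coe_comp, Function.comp_apply, AlgHom.toRingHom_eq_coe, RingHom.coe_coe,
        MvPolynomial.aeval_X, ev_apply, Polynomial.map_mul, Polynomial.map_X, Polynomial.map_C,
        MvPolynomial.eval_X, Polynomial.eval_mul, Polynomial.eval_X, Polynomial.eval_C,
        Pi.smul_apply, smul_eq_mul]
  exact congrArg (fun f => f δ) this

theorem continuous_ev {k : ℕ} (t : ℂ) (Q : Polynomial (MvPolynomial (Fin k) ℂ)) :
    Continuous (fun z : Fin k → ℂ => ev z t Q) := by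
  have : ∀ z : Fin k → ℂ, ev z t Q = MvPolynomial.eval z (Q.eval (MvPolynomial.C t)) := by
    intro z
    rw [ev_apply, Polynomial.eval_map, Polynomial.eval₂_eq_sum, Polynomial.eval_eq_sum,
      Polynomial.sum, Polynomial.sum, map_sum]
    refine Finset.sum_congr rfl fun i _ => ?_
    simp
  simp_rw [this]
  exact MvPolynomial.continuous_eval _

theorem exists_stable {k : ℕ} (δ : MvPolynomial (Fin k) ℂ) (h0 : MvPolynomial.eval 0 δ ≠ 0) :
    ∃ D : MvPolynomial (Fin k) ℂ, D ≠ 0 ∧ ∀ z, MvPolynomial.eval z D ≠ 0 → RootStable δ z := by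
  classical
  have hP : lineP δ ≠ 0 := by
    intro h
    have := ev_lineP δ 0 0
    rw [h, map_zero, smul_zero] at this
    exact h0 this.symm
  obtain ⟨S, H, W, U, V, c₁, c₂, c₃, c₄, n, hS, h1, h2, h3, h4, e1, e2, e3⟩ :=
    exists_squarefree_model (lineP δ) hP
  set D : MvPolynomial (Fin k) ℂ := c₁ * c₂ * c₄ * S.leadingCoeff with hD
  have hlc : S.leadingCoeff ≠ 0 := Polynomial.leadingCoeff_ne_zero.2 hS
  set N := S.natDegree with hN
  -- facts at points with `D ≠ 0`
  have key : ∀ z, MvPolynomial.eval z D ≠ 0 →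
      (∀ t, MvPolynomial.eval (t • z) δ = 0 ↔ (S.map (MvPolynomial.eval z)).eval t = 0) ∧
      (S.map (MvPolynomial.eval z)).natDegree = N ∧ (S.map (MvPolynomial.eval z)) ≠ 0 ∧
      (S.map (MvPolynomial.eval z)).leadingCoeff = MvPolynomial.eval z S.leadingCoeff ∧
      (S.map (MvPolynomial.eval z)).roots.toFinset.card = N := by
    intro z hz
    have hz1 : MvPolynomial.eval z c₁ ≠ 0 := by
      intro h; apply hz; simp [hD, h]
    have hz2 : MvPolynomial.eval z c₂ ≠ 0 := by
      intro h; apply hz; simp [hD, h]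
    have hz4 : MvPolynomial.eval z c₄ ≠ 0 := by
      intro h; apply hz; simp [hD, h]
    have hzl : MvPolynomial.eval z S.leadingCoeff ≠ 0 := by
      intro h; apply hz; rw [hD, map_mul, h, mul_zero]
    have hdeg : (S.map (MvPolynomial.eval z)).natDegree = N :=
      Polynomial.natDegree_map_of_leadingCoeff_ne_zero _ hzl
    have hlead : (S.map (MvPolynomial.eval z)).leadingCoeff =
        MvPolynomial.eval z S.leadingCoeff := by
      rw [Polynomial.leadingCoeff, hdeg, Polynomial.coeff_map]; rfl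
    have hne : (S.map (MvPolynomial.eval z)) ≠ 0 := by
      intro h
      rw [h, Polynomial.leadingCoeff_zero] at hlead
      exact hzl hlead.symm
    refine ⟨fun t => ⟨fun ht => ?_, fun ht => ?_⟩, hdeg, hne, hlead, ?_⟩
    · have h5 := congrArg (ev z t) e2
      rw [map_mul, map_mul, map_mul, map_pow, ev_C, ev_C, ev_lineP, ht] at h5
      simp only [mul_zero, zero_mul, mul_eq_zero, hz2, false_or] at h5
      have h6 : ev z t S = 0 := by
        by_contra h7
        exact pow_ne_zero n h7 h5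
      exact h6
    · have h5 := congrArg (ev z t) e1
      rw [map_mul, map_mul, ev_C, ev_lineP, ev_apply z t S, ht, zero_mul] at h5
      exact (mul_eq_zero.1 h5).resolve_left hz1
    · have hsep : (S.map (MvPolynomial.eval z)).Separable := by
        refine ⟨Polynomial.C (MvPolynomial.eval z c₄)⁻¹ * U.map (MvPolynomial.eval z),
          Polynomial.C (MvPolynomial.eval z c₄)⁻¹ * V.map (MvPolynomial.eval z), ?_⟩
        have h5 := congrArg (Polynomial.map (MvPolynomial.eval z)) e3
        rw [Polynomial.map_add, Polynomial.map_mul, Polynomial.map_mul, Polynomial.map_C,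
          ← Polynomial.derivative_map] at h5
        calc _ = Polynomial.C (MvPolynomial.eval z c₄)⁻¹ *
              (U.map (MvPolynomial.eval z) * S.map (MvPolynomial.eval z) +
              V.map (MvPolynomial.eval z) *
                Polynomial.derivative (S.map (MvPolynomial.eval z))) := by ring
          _ = 1 := by
            rw [h5, ← Polynomial.C_mul, inv_mul_cancel₀ hz4, Polynomial.C_1]
      rw [Multiset.toFinset_card_of_nodup (Polynomial.nodup_roots hsep),
        IsAlgClosed.card_roots_eq_natDegree, hdeg]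
  refine ⟨D, ?_, fun z hz => ?_⟩
  · rw [hD]
    exact mul_ne_zero (mul_ne_zero (mul_ne_zero h1 h2) h4) hlc
  obtain ⟨k1, k2, k3, k4, k5⟩ := key z hz
  set R := (S.map (MvPolynomial.eval z)).roots.toFinset with hR
  have hmemR : ∀ t, t ∈ R ↔ (S.map (MvPolynomial.eval z)).eval t = 0 := by
    intro t
    rw [hR, Multiset.mem_toFinset, Polynomial.mem_roots k3]; rfl
  let eqv := (R.equivFinOfCardEq k5).symm
  refine ⟨N, fun i => (eqv i : ℂ), ?_, ?_, ?_⟩
  · intro i j hij
    exact eqv.injective (Subtype.ext hij)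
  · intro t
    rw [k1 t, ← hmemR]
    constructor
    · intro h
      exact ⟨eqv.symm ⟨t, h⟩, by simp⟩
    · rintro ⟨i, rfl⟩
      exact (eqv i).2
  intro ρ hρ
  -- separation
  obtain ⟨ρ', hρ', hρρ, hsepa⟩ : ∃ ρ' : ℝ, 0 < ρ' ∧ ρ' ≤ ρ ∧
      ∀ i j : Fin N, i ≠ j → 2 * ρ' ≤ ‖(eqv i : ℂ) - (eqv j : ℂ)‖ := by
    have h5 : ∀ᶠ r : ℝ in 𝓝[>] 0, ∀ i j : Fin N, i ≠ j →
        2 * r ≤ ‖(eqv i : ℂ) - (eqv j : ℂ)‖ := by
      rw [eventually_all]
      intro i
      rw [eventually_all]
      intro j
      by_cases hij : i = j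
      · exact Eventually.of_forall (fun _ h => absurd hij h)
      · have : 0 < ‖(eqv i : ℂ) - (eqv j : ℂ)‖ / 2 := by
          have := norm_pos_iff.2 (sub_ne_zero.2
            (fun h => hij (eqv.injective (Subtype.ext h)) : (eqv i : ℂ) ≠ (eqv j : ℂ)))
          positivity
        filter_upwards [Ioo_mem_nhdsGT this] with r hr _
        linarith [hr.2]
    obtain ⟨r, hr⟩ := (h5.and (Ioo_mem_nhdsGT hρ)).exists
    exact ⟨r, hr.2.1, hr.2.2.le, hr.1⟩
  have hcont : ∀ i : Fin N, ∀ᶠ v in 𝓝 z, ‖ev v (eqv i : ℂ) S‖ <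
      ‖MvPolynomial.eval v S.leadingCoeff‖ * ρ' ^ N := by
    intro i
    have h5 : Continuous (fun v => ‖ev v (eqv i : ℂ) S‖) := (continuous_ev _ S).norm
    have h6 : Continuous (fun v => ‖MvPolynomial.eval v S.leadingCoeff‖ * ρ' ^ N) :=
      (MvPolynomial.continuous_eval _).norm.mul continuous_const
    refine h5.continuousAt.eventually_lt h6.continuousAt ?_
    have h7 : ev z (eqv i : ℂ) S = 0 := (hmemR _).1 (eqv i).2
    rw [h7, norm_zero]
    have h8 : MvPolynomial.eval z S.leadingCoeff ≠ 0 := by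
      rw [← k4]; exact Polynomial.leadingCoeff_ne_zero.2 k3
    have := norm_pos_iff.2 h8
    positivity
  have hDev : ∀ᶠ v in 𝓝 z, MvPolynomial.eval v D ≠ 0 :=
    (MvPolynomial.continuous_eval D).continuousAt.eventually_ne hz
  obtain ⟨ε, hε, hball⟩ := Metric.eventually_nhds_iff_ball.1
    ((eventually_all.2 hcont).and hDev)
  refine ⟨ε, hε, fun v hv => ?_⟩
  obtain ⟨hv1, hv2⟩ := hball v hv
  obtain ⟨l1, l2, l3, l4, l5⟩ := key v hv2
  have hex : ∀ i : Fin N, ∃ b : ℂ, b ∈ (S.map (MvPolynomial.eval v)).roots ∧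
      ‖b - (eqv i : ℂ)‖ < ρ' := by
    intro i
    by_contra hno
    push Not at hno
    have h5 := (IsAlgClosed.splits (S.map (MvPolynomial.eval v))).eval_eq_prod_roots (eqv i : ℂ)
    have h6 : ρ' ^ N ≤
        ‖((S.map (MvPolynomial.eval v)).roots.map (fun r => (eqv i : ℂ) - r)).prod‖ := by
      have hcard : Multiset.card (S.map (MvPolynomial.eval v)).roots = N := by
        rw [IsAlgClosed.card_roots_eq_natDegree, l2]
      have gen : ∀ M : Multiset ℂ, (∀ b ∈ M, ρ' ≤ ‖b - (eqv i : ℂ)‖) →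
          ρ' ^ (Multiset.card M) ≤ ‖(M.map (fun r => (eqv i : ℂ) - r)).prod‖ := by
        intro M
        induction M using Multiset.induction_on with
        | empty => intro _; simp
        | cons a M ih =>
          intro hM
          rw [Multiset.card_cons, Multiset.map_cons, Multiset.prod_cons, norm_mul, pow_succ,
            mul_comm]
          have h7 := ih (fun b hb => hM b (Multiset.mem_cons_of_mem hb))
          have h8 := hM a (Multiset.mem_cons_self a M)
          rw [norm_sub_rev] at h8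
          exact mul_le_mul h8 h7 (by positivity) (norm_nonneg _)
      have := gen _ hno
      rwa [hcard] at this
    have h7 := hv1 i
    have h8 : ev v (eqv i : ℂ) S = (S.map (MvPolynomial.eval v)).eval (eqv i : ℂ) := rfl
    rw [h8, h5, norm_mul, l4] at h7
    have h9 : ‖MvPolynomial.eval v S.leadingCoeff‖ * ρ' ^ N ≤
        ‖MvPolynomial.eval v S.leadingCoeff‖ *
        ‖((S.map (MvPolynomial.eval v)).roots.map (fun r => (eqv i : ℂ) - r)).prod‖ :=
      mul_le_mul_of_nonneg_left h6 (norm_nonneg _)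
    exact absurd h7 (not_lt.2 h9)
  choose b hb1 hb2 using hex
  have hbinj : Function.Injective b := by
    intro i j hij
    by_contra hne
    have h5 := hsepa i j hne
    have h6 : ‖(eqv i : ℂ) - (eqv j : ℂ)‖ ≤ ‖b i - (eqv i : ℂ)‖ + ‖b j - (eqv j : ℂ)‖ := by
      have : (eqv i : ℂ) - (eqv j : ℂ) = (b j - (eqv j : ℂ)) - (b i - (eqv i : ℂ)) := by
        rw [hij]; ring
      rw [this]
      exact (norm_sub_le _ _).trans (by rw [add_comm])
    have := hb2 i; have := hb2 j
    linarith
  refine ⟨b, fun i => (hb2 i).trans_le hρρ, fun t => ?_⟩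
  rw [l1 t]
  have himg : Finset.univ.image b = (S.map (MvPolynomial.eval v)).roots.toFinset := by
    apply Finset.eq_of_subset_of_card_le
    · intro x hx
      obtain ⟨i, -, rfl⟩ := Finset.mem_image.1 hx
      exact Multiset.mem_toFinset.2 (hb1 i)
    · rw [l5, Finset.card_image_of_injective _ hbinj, Finset.card_univ, Fintype.card_fin]
  constructor
  · intro ht
    have : t ∈ (S.map (MvPolynomial.eval v)).roots.toFinset :=
      Multiset.mem_toFinset.2 ((Polynomial.mem_roots l3).2 ht)
    rw [← himg] at this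
    obtain ⟨i, -, rfl⟩ := Finset.mem_image.1 this
    exact ⟨i, rfl⟩
  · rintro ⟨i, rfl⟩
    exact (Polynomial.mem_roots l3).1 (hb1 i)

end Pool.Agent.J4.H71.Gorin
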