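import Pool.Agent.J4.H71.Gorin.Push
import Pool.Agent.J4.H71.Gorin.Root
import Pool.Agent.J4.H71.Gorin.Chart
import Pool.Agent.J4.H71.Gorin.Line

/-! The first cohomology of `Y` has finite rank (Lefschetz and Zariski: a generic line through the
origin suffices). -/

set_option autoImplicit false
set_option maxHeartbeats 4000000

open Metric Set Topology Filter H113G

namespace Pool.Agent.J4.H71.Gorin

section
variable {m k : ℕ} {Y : Set (Fin m → ℂ)} {pr : (Fin m → ℂ) → (Fin k → ℂ)}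
  {δ : MvPolynomial (Fin k) ℂ} {e : ℕ}

/-- `(y, h)` is reachable -/
def Rel (Y : Set (Fin m → ℂ)) (pr : (Fin m → ℂ) → (Fin k → ℂ)) (δ : MvPolynomial (Fin k) ℂ)
    (g : (Fin m → ℂ) → ℂ) (w₀ : Wg Y pr δ g) (y : Fin m → ℂ) (h : ℂ) : Prop :=
  ∃ w : Wg Y pr δ g, w.1 = (y, h) ∧ Reach (qW Y pr δ g) w₀ w

theorem rel_exp {g : (Fin m → ℂ) → ℂ} {w₀ : Wg Y pr δ g} {y : Fin m → ℂ} {h : ℂ}
    (hr : Rel Y pr δ g w₀ y h) : Complex.exp h = g y := by
  obtain ⟨w, hw, -⟩ := hr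
  have := w.2.2.2
  rw [hw] at this
  exact this

theorem exp_add_two_pi (a : ℂ) (n : ℤ) : Complex.exp (a + n * (2 * Real.pi * Complex.I)) =
    Complex.exp a := by
  rw [Complex.exp_eq_exp_iff_exists_int]
  exact ⟨n, rfl⟩

/-- local constancy of reachability along sheets -/
theorem rel_local (hc : Cov Y pr δ e) {g : (Fin m → ℂ) → ℂ} (hg : ContinuousOn g Y)
    (hg0 : ∀ y ∈ Y, g y ≠ 0) (h00 : MvPolynomial.eval 0 δ ≠ 0) (w₀ : Wg Y pr δ g)
    {y : Fin m → ℂ} (hy : y ∈ Y) (hyδ : MvPolynomial.eval (pr y) δ ≠ 0)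
    (hst : RootStable δ (pr y)) :
    ∃ N ∈ 𝓝 y, ∃ L : (Fin m → ℂ) → ℂ, ContinuousOn L (Y ∩ N) ∧
      (∀ y' ∈ Y ∩ N, Complex.exp (L y') = g y') ∧
      ∀ y' ∈ Y ∩ N, ∀ n : ℤ, Rel Y pr δ g w₀ y' (L y' + n * (2 * Real.pi * Complex.I)) ↔
        Rel Y pr δ g w₀ y (L y + n * (2 * Real.pi * Complex.I)) := by
  classical
  set z := pr y with hz
  obtain ⟨r, hr, s, L, hs, hL, h⟩ := local_data hc g hg hg0 z hyδ
  obtain ⟨ε, hε, htr⟩ := transport (qW Y pr δ g) (isCoveringMap_qW hc g hg hg0) w₀ h00 z hyδ hst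
  have hr'r : ball z (min r ε) ⊆ ball z r := ball_subset_ball (min_le_left _ _)
  have hr'ε : ball z (min r ε) ⊆ ball z ε := ball_subset_ball (min_le_right _ _)
  have hr' : 0 < min r ε := lt_min hr hε
  have hmem : ∀ i, ∀ z' ∈ ball z r, s i z' ∈ Y ∧ pr (s i z') = z' := by
    intro i z' hz'
    have : s i z' ∈ {y | y ∈ Y ∧ pr y = z'} := by
      rw [(h z' hz').2.2.1]
      exact ⟨i, rfl⟩
    exact this
  obtain ⟨i, hi⟩ : ∃ i, s i z = y := by
    have h1 : y ∈ {y | y ∈ Y ∧ pr y = z} := ⟨hy, rfl⟩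
    rw [(h z (mem_ball_self hr)).2.2.1] at h1
    obtain ⟨i, hi⟩ := h1
    exact ⟨i, hi⟩
  have hcpr : Continuous pr := hc.diff.continuous
  -- moving along the sheet
  have move : ∀ (n : ℤ) (a b : Fin k → ℂ), a ∈ ball z (min r ε) → b ∈ ball z (min r ε) →
      Rel Y pr δ g w₀ (s i a) (L i a + n * (2 * Real.pi * Complex.I)) →
      Rel Y pr δ g w₀ (s i b) (L i b + n * (2 * Real.pi * Complex.I)) := by
    intro n a b ha hb ⟨w, hw, hR⟩
    have hseg : ∀ σ : unitInterval, a + ((σ : ℝ) : ℂ) • (b - a) ∈ ball z (min r ε) := by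
      intro σ
      have := (convex_ball z (min r ε)) ha hb (sub_nonneg.2 σ.2.2) σ.2.1 (by ring)
      convert this using 1
      rw [sub_smul, one_smul]
      ext j
      simp only [Pi.add_apply, Pi.smul_apply, Pi.sub_apply, smul_eq_mul, Complex.real_smul]
      ring
    have hsegc : Continuous (fun σ : unitInterval => a + ((σ : ℝ) : ℂ) • (b - a)) := by
      fun_prop
    let P : C(unitInterval, Wg Y pr δ g) := ⟨fun σ =>
      ⟨(s i (a + ((σ : ℝ) : ℂ) • (b - a)),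
        L i (a + ((σ : ℝ) : ℂ) • (b - a)) + n * (2 * Real.pi * Complex.I)),
        (hmem i _ (hr'r (hseg σ))).1, by
          change MvPolynomial.eval (pr (s i (a + ((σ : ℝ) : ℂ) • (b - a)))) δ ≠ 0
          rw [(hmem i _ (hr'r (hseg σ))).2]
          exact (h _ (hr'r (hseg σ))).1, by
          change Complex.exp (L i (a + ((σ : ℝ) : ℂ) • (b - a)) +
            n * (2 * Real.pi * Complex.I)) = g (s i (a + ((σ : ℝ) : ℂ) • (b - a)))
          rw [exp_add_two_pi]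
          exact (h _ (hr'r (hseg σ))).2.2.2 i⟩, by
        refine Continuous.subtype_mk (Continuous.prodMk ?_ (Continuous.add ?_ continuous_const)) _
        · exact (hs i).comp_continuous hsegc (fun σ => hr'r (hseg σ))
        · exact (hL i).comp_continuous hsegc (fun σ => hr'r (hseg σ))⟩
    have hP0 : P 0 = w := by
      refine Subtype.ext ?_
      rw [hw]
      change (s i (a + (((0 : unitInterval) : ℝ) : ℂ) • (b - a)), L i (a +
        (((0 : unitInterval) : ℝ) : ℂ) • (b - a)) + n * (2 * Real.pi * Complex.I)) = _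
      simp
    have hP1 : (P 1).1 = (s i b, L i b + n * (2 * Real.pi * Complex.I)) := by
      change (s i (a + (((1 : unitInterval) : ℝ) : ℂ) • (b - a)), L i (a +
        (((1 : unitInterval) : ℝ) : ℂ) • (b - a)) + n * (2 * Real.pi * Complex.I)) = _
      simp
    have hqP : ∀ σ, (qW Y pr δ g (P σ)).1 = a + ((σ : ℝ) : ℂ) • (b - a) := by
      intro σ
      exact (hmem i _ (hr'r (hseg σ))).2
    have hqw : (qW Y pr δ g w).1 = a := by
      rw [← hP0, hqP 0]; simp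
    have hqw' : (qW Y pr δ g (P 1)).1 = b := by
      rw [hqP 1]; simp
    refine ⟨P 1, hP1, ?_⟩
    refine htr w (P 1) (by rw [hqw]; exact hr'ε ha) (by rw [hqw']; exact hr'ε hb) hR P hP0 rfl ?_
    intro σ
    rw [hqP, hqw, hqw']
  -- the neighbourhood
  set N : Set (Fin m → ℂ) := pr ⁻¹' ball z (min r ε) ∩ {y' | ∀ j, j ≠ i → s j (pr y') ≠ y'} with hN
  have hNn : N ∈ 𝓝 y := by
    refine inter_mem ((isOpen_ball.preimage hcpr).mem_nhds (mem_ball_self hr')) ?_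
    have : ∀ j, ∀ᶠ y' in 𝓝 y, j ≠ i → s j (pr y') ≠ y' := by
      intro j
      by_cases hj : j = i
      · exact Eventually.of_forall (fun _ h => absurd hj h)
      · have h1 : ContinuousAt (fun y' => s j (pr y') - y') y := by
          have h2 : ContinuousAt (s j) (pr y) :=
            (hs j).continuousAt (isOpen_ball.mem_nhds (mem_ball_self hr))
          exact (h2.comp hcpr.continuousAt).sub continuousAt_id
        have h3 : s j (pr y) - y ≠ 0 := by
          rw [sub_ne_zero]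
          intro h4
          exact hj ((h z (mem_ball_self hr)).2.1 (h4.trans hi.symm))
        filter_upwards [h1.eventually_ne h3] with y' hy' _
        exact sub_ne_zero.1 hy'
    exact (eventually_all.2 this)
  have hyi : ∀ y' ∈ Y ∩ N, s i (pr y') = y' := by
    rintro y' ⟨hy', hy'1, hy'2⟩
    have h1 : y' ∈ {y | y ∈ Y ∧ pr y = pr y'} := ⟨hy', rfl⟩
    rw [(h _ (hr'r hy'1)).2.2.1] at h1
    obtain ⟨j, hj⟩ := h1
    have hij : j = i := by
      by_contra hne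
      exact hy'2 j hne hj
    rw [← hij]
    exact hj
  refine ⟨N, hNn, fun y' => L i (pr y'), ?_, ?_, ?_⟩
  · exact (hL i).comp hcpr.continuousOn (fun y' hy' => hr'r hy'.2.1)
  · intro y' hy'
    rw [(h _ (hr'r hy'.2.1)).2.2.2 i, hyi y' hy']
  · intro y' hy' n
    have h1 := move n (pr y') z hy'.2.1 (mem_ball_self hr')
    have h2 := move n z (pr y') (mem_ball_self hr') hy'.2.1
    rw [hyi y' hy', hi] at h1 h2
    exact ⟨h1, h2⟩

/-- local logarithm of a continuous function near a point of `Y` -/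
theorem local_log {g : (Fin m → ℂ) → ℂ} (hg : ContinuousOn g Y) {p : Fin m → ℂ} (hp : p ∈ Y)
    (hg0 : g p ≠ 0) : ∃ N ∈ 𝓝 p, ∃ L : (Fin m → ℂ) → ℂ, ContinuousOn L (Y ∩ N) ∧
      ∀ y ∈ Y ∩ N, Complex.exp (L y) = g y := by
  have h1 : ∀ᶠ y in 𝓝[Y] p, g y / g p ∈ Complex.slitPlane := by
    have h2 : ContinuousWithinAt (fun y => g y / g p) Y p := (hg p hp).div_const _
    have h3 : g p / g p ∈ Complex.slitPlane := by
      rw [div_self hg0]; exact Complex.one_mem_slitPlane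
    exact h2 (Complex.isOpen_slitPlane.mem_nhds h3)
  obtain ⟨N, hN, hNs⟩ := mem_nhdsWithin_iff_exists_mem_nhds_inter.1 h1
  refine ⟨N, hN, fun y => Complex.log (g p) + Complex.log (g y / g p), ?_, ?_⟩
  · refine continuousOn_const.add ?_
    refine ContinuousOn.clog ((hg.mono inter_subset_left).div_const _) ?_
    exact fun y hy => hNs ⟨hy.2, hy.1⟩
  · intro y hy
    have h3 : g y / g p ≠ 0 := Complex.slitPlane_ne_zero (hNs ⟨hy.2, hy.1⟩)
    rw [Complex.exp_add, Complex.exp_log hg0, Complex.exp_log h3]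
    field_simp

/-- the fibre of the reachable set over the line is a point if `g` has a logarithm there -/
theorem rel_unique_line {g : (Fin m → ℂ) → ℂ} (w₀ : Wg Y pr δ g) {v : Fin k → ℂ}
    (hlog : HasLog (LineSet Y pr δ v) (fun x => g x.2)) {y : Fin m → ℂ} (hy : pr y = v) {h h' : ℂ}
    (h1 : Rel Y pr δ g w₀ y h) (h2 : Rel Y pr δ g w₀ y h') : h = h' := by
  obtain ⟨H, hH, hHe⟩ := hlog
  have key : ∀ h, Rel Y pr δ g w₀ y h → h - H (1, y) = w₀.1.2 - H (0, w₀.1.1) := by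
    rintro h ⟨w, hw, c, hc, Γ, hΓ0, hΓ1, hΓ⟩
    have hqw : (qW Y pr δ g w).1 = v := by
      change pr w.1.1 = v
      rw [hw]; exact hy
    rw [hqw] at hc hΓ
    have hmem : ∀ τ : unitInterval, (c τ, (Γ τ).1.1) ∈ LineSet Y pr δ v := by
      intro τ
      exact ⟨(Γ τ).2.1, hΓ τ, hc.2.2 τ⟩
    have hcont : Continuous (fun τ : unitInterval => (Γ τ).1.2 - H (c τ, (Γ τ).1.1)) := by
      refine Continuous.sub ?_ ?_
      · exact continuous_snd.comp (continuous_subtype_val.comp Γ.continuous)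
      · refine hH.comp_continuous ?_ hmem
        exact c.continuous.prodMk
          (continuous_fst.comp (continuous_subtype_val.comp Γ.continuous))
    have h3 := const_of_exp_one (S := (univ : Set unitInterval)) isPreconnected_univ
      hcont.continuousOn (fun τ _ => by
        rw [Complex.exp_sub, hHe _ (hmem τ), (Γ τ).2.2.2]
        exact div_self (by rw [← (Γ τ).2.2.2]; exact Complex.exp_ne_zero _)) 1 (mem_univ _)
      0 (mem_univ _)
    simp only [hΓ0, hΓ1, hc.1, hc.2.1, hw] at h3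
    exact h3
  have e1 := key h h1
  have e2 := key h' h2
  linear_combination e1 - e2

theorem log_of_line (hc : Cov Y pr δ e) (hY : HasCharts Y) (hconn : IsPreconnected Y)
    {g : (Fin m → ℂ) → ℂ} (hg : ContinuousOn g Y) (hg0 : ∀ y ∈ Y, g y ≠ 0)
    {D : MvPolynomial (Fin k) ℂ} (hD : ∀ z, MvPolynomial.eval z D ≠ 0 → RootStable δ z)
    {y₁ : Fin m → ℂ} (hy₁ : y₁ ∈ Y) (hDy : MvPolynomial.eval (pr y₁) D ≠ 0)
    (hδy : MvPolynomial.eval (pr y₁) δ ≠ 0)
    (hlog : HasLog (LineSet Y pr δ (pr y₁)) (fun x => g x.2)) : HasLog Y g := by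
  classical
  have h00 := hc.base
  -- a point over `0`
  obtain ⟨y₀, hy₀, hy₀'⟩ : ∃ y₀ ∈ Y, pr y₀ = 0 := by
    obtain ⟨r, hr, s, -, hs⟩ := hc.sections (pr y₁) hδy
    have h1 : y₁ ∈ {y | y ∈ Y ∧ pr y = pr y₁} := ⟨hy₁, rfl⟩
    rw [(hs _ (mem_ball_self hr)).2.2] at h1
    obtain ⟨i, -⟩ := h1
    obtain ⟨r', hr', s', -, hs'⟩ := hc.sections 0 h00
    have h2 : s' i 0 ∈ {y | y ∈ Y ∧ pr y = 0} := by
      rw [(hs' _ (mem_ball_self hr')).2.2]; exact ⟨i, rfl⟩
    exact ⟨_, h2.1, h2.2⟩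
  let w₀ : Wg Y pr δ g := ⟨(y₀, Complex.log (g y₀)), hy₀, by
    change MvPolynomial.eval (pr y₀) δ ≠ 0
    rw [hy₀']; exact h00, Complex.exp_log (hg0 y₀ hy₀)⟩
  have cov := isCoveringMap_qW hc g hg hg0
  -- the good part of `Y`
  set G : (Fin m → ℂ) → ℂ := fun y => MvPolynomial.eval (pr y) (D * δ) with hGdef
  have hGd : Differentiable ℂ G := by
    have h1 : Differentiable ℂ (fun z : Fin k → ℂ => MvPolynomial.eval z (D * δ)) := by
      intro z
      induction (D * δ) using MvPolynomial.induction_on with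
      | C a => simp
      | add p q hp hq =>
        simp only [map_add]
        exact DifferentiableAt.fun_add hp hq
      | mul_X p i hp =>
        simp only [map_mul, MvPolynomial.eval_X]
        exact hp.mul (differentiableAt_apply i z)
    exact h1.comp hc.diff
  have hGne : ∀ y, G y ≠ 0 ↔ MvPolynomial.eval (pr y) D ≠ 0 ∧ MvPolynomial.eval (pr y) δ ≠ 0 := by
    intro y
    rw [hGdef]
    simp only [map_mul]
    exact mul_ne_zero_iff
  set Y' : Set (Fin m → ℂ) := {y ∈ Y | G y ≠ 0} with hY'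
  have hex : ∃ y ∈ Y, G y ≠ 0 := ⟨y₁, hy₁, (hGne _).2 ⟨hDy, hδy⟩⟩
  have hY'c : IsPreconnected Y' := isPreconnected_of_charts hY hconn hGd hex
  have hY'd : Y ⊆ closure Y' := dense_of_charts hY hconn hGd hex
  -- local structure
  have hloc : ∀ y ∈ Y', ∃ N ∈ 𝓝 y, ∃ L : (Fin m → ℂ) → ℂ, ContinuousOn L (Y ∩ N) ∧
      (∀ y' ∈ Y ∩ N, Complex.exp (L y') = g y') ∧
      ∀ y' ∈ Y ∩ N, ∀ n : ℤ, Rel Y pr δ g w₀ y' (L y' + n * (2 * Real.pi * Complex.I)) ↔
        Rel Y pr δ g w₀ y (L y + n * (2 * Real.pi * Complex.I)) := by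
    intro y hy
    have h1 := (hGne y).1 hy.2
    exact rel_local hc hg hg0 h00 w₀ hy.1 h1.2 (hD _ h1.1)
  have hint : ∀ (a h : ℂ) (y : Fin m → ℂ), Complex.exp a = g y → Rel Y pr δ g w₀ y h →
      ∃ n : ℤ, h = a + n * (2 * Real.pi * Complex.I) := by
    intro a h y ha hr
    have h1 := rel_exp hr
    rw [← ha, Complex.exp_eq_exp_iff_exists_int] at h1
    exact h1
  have hpropconst : ∀ (Q : (Fin m → ℂ) → Prop), (∀ y ∈ Y', ∃ N ∈ 𝓝 y, ∀ y' ∈ Y' ∩ N, (Q y' ↔ Q y)) →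
      ∀ a ∈ Y', ∀ b ∈ Y', (Q a ↔ Q b) := by
    intro Q hQ a ha b hb
    have : (decide (Q a) : Bool) = decide (Q b) := by
      refine hY'c.constant (f := fun y => (decide (Q y) : Bool)) ?_ ha hb
      intro y hy
      obtain ⟨N, hN, h⟩ := hQ y hy
      refine tendsto_const_nhds.congr' ?_
      filter_upwards [self_mem_nhdsWithin, mem_nhdsWithin_of_mem_nhds hN] with y' h1 h2
      have := h y' ⟨h1, h2⟩
      simp only [this]
    simpa using this
  -- a reachable point over `pr y₁`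
  obtain ⟨y₂, hy₂, hy₂p, h₂, hrel₂⟩ : ∃ y₂ ∈ Y, pr y₂ = pr y₁ ∧ ∃ h, Rel Y pr δ g w₀ y₂ h := by
    obtain ⟨N, b, -, hb, -⟩ := hD _ hDy
    have hpc : IsPathConnected (Set.range b)ᶜ :=
      (Set.finite_range b).countable.isPathConnected_compl_of_one_lt_rank
        (by rw [Complex.rank_real_complex]; exact Nat.one_lt_ofNat)
    have m0 : (0 : ℂ) ∈ (Set.range b)ᶜ := by
      rintro ⟨i, hi⟩
      have := (hb 0).2 ⟨i, hi.symm⟩
      rw [zero_smul] at this
      exact h00 this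
    have m1 : (1 : ℂ) ∈ (Set.range b)ᶜ := by
      rintro ⟨i, hi⟩
      have := (hb 1).2 ⟨i, hi.symm⟩
      rw [one_smul] at this
      exact hδy this
    obtain ⟨γ, hγ⟩ := hpc.joinedIn 0 m0 1 m1
    have hγδ : ∀ τ, MvPolynomial.eval (γ τ • pr y₁) δ ≠ 0 := by
      intro τ hh
      obtain ⟨i, hi⟩ := (hb _).1 hh
      exact hγ τ ⟨i, hi.symm⟩
    let f : C(unitInterval, Sp δ) := ⟨fun τ => ⟨γ τ • pr y₁, hγδ τ⟩,
      (γ.continuous.smul continuous_const).subtype_mk _⟩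
    have hf0 : f 0 = qW Y pr δ g w₀ := by
      refine Subtype.ext ?_
      change γ 0 • pr y₁ = pr y₀
      rw [γ.source, zero_smul, hy₀']
    let Γ := cov.liftPath f w₀ hf0
    have hΓ : ∀ τ, qW Y pr δ g (Γ τ) = f τ := fun τ => congrFun (cov.liftPath_lifts f w₀ hf0) τ
    have hq1 : (qW Y pr δ g (Γ 1)).1 = pr y₁ := by
      rw [hΓ 1]
      change γ 1 • pr y₁ = pr y₁
      rw [γ.target, one_smul]
    refine ⟨(Γ 1).1.1, (Γ 1).2.1, hq1, (Γ 1).1.2, Γ 1, rfl, ⟨γ, γ.continuous⟩,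
      ⟨γ.source, γ.target, ?_⟩, Γ, cov.liftPath_zero f w₀ hf0, rfl, ?_⟩
    · intro τ
      rw [hq1]; exact hγδ τ
    · intro τ
      rw [hq1, hΓ τ]
      rfl
  have hy₂' : y₂ ∈ Y' := ⟨hy₂, (hGne _).2 (by rw [hy₂p]; exact ⟨hDy, hδy⟩)⟩
  have hgood : ∀ y ∈ Y', ∃ h, Rel Y pr δ g w₀ y h := by
    intro y hy
    refine (hpropconst (fun y => ∃ h, Rel Y pr δ g w₀ y h) ?_ y₂ hy₂' y hy).1 ⟨h₂, hrel₂⟩
    intro y hy
    obtain ⟨N, hN, L, hL, hLe, hiff⟩ := hloc y hy
    refine ⟨N, hN, fun y' hy' => ⟨?_, ?_⟩⟩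
    · rintro ⟨h, hr⟩
      obtain ⟨n, rfl⟩ := hint (L y') h y' (hLe y' ⟨hy'.1.1, hy'.2⟩) hr
      exact ⟨_, (hiff y' ⟨hy'.1.1, hy'.2⟩ n).1 hr⟩
    · rintro ⟨h, hr⟩
      obtain ⟨n, rfl⟩ := hint (L y) h y (hLe y ⟨hy.1, mem_of_mem_nhds hN⟩) hr
      exact ⟨_, (hiff y' ⟨hy'.1.1, hy'.2⟩ n).2 hr⟩
  have huniq : ∀ y ∈ Y', ∀ h h', Rel Y pr δ g w₀ y h → Rel Y pr δ g w₀ y h' → h = h' := by
    intro y hy
    refine (hpropconst (fun y => ∀ h h', Rel Y pr δ g w₀ y h → Rel Y pr δ g w₀ y h' → h = h')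
      ?_ y₂ hy₂' y hy).1 ?_
    · intro y hy
      obtain ⟨N, hN, L, hL, hLe, hiff⟩ := hloc y hy
      have hyN : y ∈ Y ∩ N := ⟨hy.1, mem_of_mem_nhds hN⟩
      refine ⟨N, hN, fun y' hy' => ⟨?_, ?_⟩⟩
      · intro hall h h' hr hr'
        obtain ⟨n, rfl⟩ := hint (L y) h y (hLe y hyN) hr
        obtain ⟨n', rfl⟩ := hint (L y) h' y (hLe y hyN) hr'
        have := hall _ _ ((hiff y' ⟨hy'.1.1, hy'.2⟩ n).2 hr) ((hiff y' ⟨hy'.1.1, hy'.2⟩ n').2 hr')
        rw [add_left_cancel this]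
      · intro hall h h' hr hr'
        obtain ⟨n, rfl⟩ := hint (L y') h y' (hLe y' ⟨hy'.1.1, hy'.2⟩) hr
        obtain ⟨n', rfl⟩ := hint (L y') h' y' (hLe y' ⟨hy'.1.1, hy'.2⟩) hr'
        have := hall _ _ ((hiff y' ⟨hy'.1.1, hy'.2⟩ n).1 hr) ((hiff y' ⟨hy'.1.1, hy'.2⟩ n').1 hr')
        rw [add_left_cancel this]
    · intro h h' hr hr'
      exact rel_unique_line w₀ hlog hy₂p hr hr'
  -- the logarithm on `Y'`
  choose! H hH using hgood
  have hHc : ContinuousOn H Y' := by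
    intro y hy
    obtain ⟨N, hN, L, hL, hLe, hiff⟩ := hloc y hy
    have hyN : y ∈ Y ∩ N := ⟨hy.1, mem_of_mem_nhds hN⟩
    obtain ⟨n, hn⟩ := hint (L y) (H y) y (hLe y hyN) (hH y hy)
    have h1 : ContinuousWithinAt (fun y' => L y' + n * (2 * Real.pi * Complex.I)) Y' y := by
      refine ContinuousWithinAt.add ?_ continuousWithinAt_const
      have h2 : ContinuousWithinAt L (Y' ∩ N) y :=
        (hL y hyN).mono (fun y' hy' => ⟨hy'.1.1, hy'.2⟩)
      rwa [continuousWithinAt_inter hN] at h2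
    refine h1.congr_of_eventuallyEq ?_ hn
    filter_upwards [self_mem_nhdsWithin, mem_nhdsWithin_of_mem_nhds hN] with y' h2 h3
    refine huniq y' h2 _ _ (hH y' h2) ?_
    refine (hiff y' ⟨h2.1, h3⟩ n).2 ?_
    rw [← hn]
    exact hH y hy
  have hHe : ∀ y ∈ Y', Complex.exp (H y) = g y := fun y hy => rel_exp (hH y hy)
  -- extension to `Y`
  have hlim : ∀ p ∈ Y, ∃ l, Tendsto H (𝓝[Y'] p) (𝓝 l) ∧ Complex.exp l = g p := by
    intro p hp
    obtain ⟨N, hN, L, hL, hLe⟩ := local_log hg hp (hg0 p hp)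
    obtain ⟨V, hV, hVN, hVc⟩ := local_of_charts hY hGd p hp N hN
    have hne : (Y' ∩ V).Nonempty := by
      have := mem_closure_iff_nhds.1 (hY'd hp) V hV
      rwa [inter_comm] at this
    obtain ⟨a, ha⟩ := hne
    have hLV : ContinuousOn L (Y' ∩ V) := hL.mono (fun y hy => ⟨hy.1.1, hVN hy.2⟩)
    have hexp : ∀ x ∈ Y' ∩ V, Complex.exp (H x - L x) = 1 := by
      intro x hx
      rw [Complex.exp_sub, hHe x hx.1, hLe x ⟨hx.1.1, hVN hx.2⟩]
      exact div_self (hg0 x hx.1.1)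
    have hconst := const_of_exp_one hVc ((hHc.mono inter_subset_left).sub hLV) hexp
    refine ⟨L p + (H a - L a), ?_, ?_⟩
    · have h1 : Tendsto (fun x => L x + (H a - L a)) (𝓝[Y'] p) (𝓝 (L p + (H a - L a))) := by
        refine Tendsto.add ?_ tendsto_const_nhds
        have h2 : ContinuousWithinAt L (Y ∩ N) p := hL p ⟨hp, mem_of_mem_nhds hN⟩
        rw [continuousWithinAt_inter hN] at h2
        exact h2.mono (fun x hx => hx.1)
      refine h1.congr' ?_
      filter_upwards [self_mem_nhdsWithin, mem_nhdsWithin_of_mem_nhds hV] with x h2 h3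
      have h4 : H x - L x = H a - L a := hconst x ⟨h2, h3⟩ a ha
      rw [← h4]
      ring
    · rw [Complex.exp_add, hexp a ha, mul_one, hLe p ⟨hp, mem_of_mem_nhds hN⟩]
  refine ⟨extendFrom Y' H, continuousOn_extendFrom hY'd (fun p hp => ?_), fun p hp => ?_⟩
  · obtain ⟨l, hl, -⟩ := hlim p hp
    exact ⟨l, hl⟩
  · obtain ⟨l, hl, hl'⟩ := hlim p hp
    rw [extendFrom_eq (hY'd hp) hl, hl']

end

/-- any connected `Y` as in the notion `Cov` with charts has a first cohomology group of finite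
rank -/
theorem finiteRank_of_cov {m k : ℕ} {Y : Set (Fin m → ℂ)} {pr : (Fin m → ℂ) → (Fin k → ℂ)}
    {δ : MvPolynomial (Fin k) ℂ} {e : ℕ} (hc : H113G.Cov Y pr δ e) (hY : H113G.HasCharts Y)
    (hconn : IsConnected Y) : ∃ s : ℕ, H113G.FiniteRank Y s := by
  classical
  have h00 := hc.base
  obtain ⟨D, hD0, hD⟩ := exists_stable δ h00
  have hδ0 : δ ≠ 0 := by
    rintro rfl
    exact h00 (map_zero _)
  obtain ⟨y₁, hy₁, hy₁'⟩ := hc.dominant (D * δ) (mul_ne_zero hD0 hδ0)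
  rw [map_mul] at hy₁'
  have hDy : MvPolynomial.eval (pr y₁) D ≠ 0 := left_ne_zero_of_mul hy₁'
  have hδy : MvPolynomial.eval (pr y₁) δ ≠ 0 := right_ne_zero_of_mul hy₁'
  obtain ⟨s, hs⟩ := finiteRank_lineSet hc (pr y₁) (hD _ hDy)
  refine ⟨s, fun g hg hg0 => ?_⟩
  obtain ⟨a, ha, hlog⟩ := hs (fun l x => g l x.2)
    (fun l => (hg l).comp continuousOn_snd (fun x hx => hx.1)) (fun l x hx => hg0 l _ hx.1)
  refine ⟨a, ha, ?_⟩
  refine log_of_line (g := fun y => ∏ l, g l y ^ a l) hc hY hconn.isPreconnected ?_ ?_ hD hy₁ hDy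
    hδy hlog
  · refine continuousOn_finsetProd _ fun l _ => ?_
    exact (hg l).zpow₀ (a l) (fun y hy => Or.inl (hg0 l y hy))
  · intro y hy
    exact Finset.prod_ne_zero_iff.2 (fun l _ => zpow_ne_zero _ (hg0 l y hy))

end Pool.Agent.J4.H71.Gorin
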