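import Pool.Agent.J4.H71.Gorin.Cover

/-! `Yo → Sp` is a covering map; global holomorphic sections over convex open subsets of a line. -/

set_option autoImplicit false
set_option maxHeartbeats 4000000

open Metric Set Topology Filter H113G

namespace Pool.Agent.J4.H71.Gorin

variable {m k : ℕ} {Y : Set (Fin m → ℂ)} {pr : (Fin m → ℂ) → (Fin k → ℂ)}
  {δ : MvPolynomial (Fin k) ℂ} {e : ℕ}

theorem isCoveringMap_qY (hc : H113G.Cov Y pr δ e) : IsCoveringMap (H113G.qY Y pr δ) := by
  classical
  intro x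
  obtain ⟨r, hr, s, hs, h⟩ := hc.sections x.1 x.2
  refine IsEvenlyCovered.to_isEvenlyCovered_preimage (I := Fin e) ?_
  have hmem : ∀ i, ∀ z' ∈ ball x.1 r, s i z' ∈ Y ∧ pr (s i z') = z' := by
    intro i z' hz'
    have : s i z' ∈ {y | y ∈ Y ∧ pr y = z'} := by
      rw [(h z' hz').2.2]
      exact ⟨i, rfl⟩
    exact this
  have hsc : ∀ i, ContinuousOn (s i) (ball x.1 r) := fun i => (hs i).continuousOn
  set U : Set (Sp δ) := {z' | z'.1 ∈ ball x.1 r} with hU
  let σ : Fin e → U → Yo Y pr δ := fun i z' =>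
    ⟨s i z'.1.1, (hmem i _ z'.2).1, by
        change MvPolynomial.eval (pr (s i z'.1.1)) δ ≠ 0
        rw [(hmem i _ z'.2).2]; exact z'.1.2⟩
  have hopU : IsOpen U := isOpen_ball.preimage continuous_subtype_val
  have hcq : Continuous (qY Y pr δ) := by
    refine Continuous.subtype_mk ?_ _
    exact hc.diff.continuous.comp continuous_subtype_val
  refine evenlyCovered_of_sections (qY Y pr δ) hcq x U
    (by simpa [hU] using hr) hopU σ ?_ ?_ ?_ ?_ ?_
  · intro i
    refine Continuous.subtype_mk ?_ _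
    exact (hsc i).comp_continuous (continuous_subtype_val.comp continuous_subtype_val)
        (fun z' => z'.2)
  · intro i z'
    exact Subtype.ext (hmem i _ z'.2).2
  · intro i j z' hz'
    have h1 := congrArg (fun w : Yo Y pr δ => w.1) hz'
    exact (h _ z'.2).2.1 h1
  · intro w hw0
    have hw : pr w.1 ∈ ball x.1 r := hw0
    have h1 : w.1 ∈ {y | y ∈ Y ∧ pr y = pr w.1} := ⟨w.2.1, rfl⟩
    rw [(h _ hw).2.2] at h1
    obtain ⟨i, hi⟩ := h1
    exact ⟨i, Subtype.ext hi⟩
  · intro i
    set V : Set (Yo Y pr δ) := qY Y pr δ ⁻¹' U with hV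
    have hVo : IsOpen V := hopU.preimage hcq
    have hcpr : Continuous (fun w : Yo Y pr δ => pr w.1) :=
      hc.diff.continuous.comp continuous_subtype_val
    have hA : ∀ j, IsOpen (V ∩ (fun w : Yo Y pr δ => s j (pr w.1) - w.1) ⁻¹' {0}ᶜ) := by
      intro j
      refine ContinuousOn.isOpen_inter_preimage ?_ hVo isOpen_compl_singleton
      refine ContinuousOn.sub ?_ continuous_subtype_val.continuousOn
      exact (hsc j).comp hcpr.continuousOn (fun w hw => hw)
    have : Set.range (σ i) = (⋂ j ∈ (Finset.univ.erase i : Finset (Fin e)),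
        (V ∩ (fun w : Yo Y pr δ => s j (pr w.1) - w.1) ⁻¹' {0}ᶜ)) ∩ V := by
      ext w
      simp only [mem_range, mem_inter_iff, mem_iInter, mem_preimage, mem_compl_iff,
        mem_singleton_iff, Finset.mem_erase, Finset.mem_univ, and_true]
      constructor
      · rintro ⟨z', rfl⟩
        have e1 : pr (s i z'.1.1) = z'.1.1 := (hmem i _ z'.2).2
        have hVz : σ i z' ∈ V := by
          change pr (s i z'.1.1) ∈ ball x.1 r
          rw [e1]; exact z'.2
        refine ⟨fun j hj => ⟨hVz, ?_⟩, hVz⟩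
        change ¬ (s j (pr (s i z'.1.1)) - s i z'.1.1 = 0)
        rw [e1, sub_eq_zero]
        exact fun hh => hj ((h _ z'.2).2.1 hh)
      · rintro ⟨h1, h20⟩
        have h2 : pr w.1 ∈ ball x.1 r := h20
        have h4 : w.1 ∈ {y | y ∈ Y ∧ pr y = pr w.1} := ⟨w.2.1, rfl⟩
        rw [(h _ h2).2.2] at h4
        obtain ⟨j, hj⟩ := h4
        have hij : j = i := by
          by_contra hne
          exact (h1 j hne).2 (sub_eq_zero.2 hj)
        subst hij
        exact ⟨⟨⟨pr w.1, w.2.2⟩, h2⟩, Subtype.ext hj⟩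
    rw [this]
    exact (isOpen_biInter_finset (fun j _ => hA j)).inter hVo

end Pool.Agent.J4.H71.Gorin
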