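import Pool.Agent.Helper113.Gorin.Defs

/-! Covering space tools: logarithms on convex open sets, the covering `Wg → Sp`. -/

set_option autoImplicit false
set_option maxHeartbeats 4000000

open Metric Set Topology Filter H113G

namespace Pool.Agent.J4.H71.Gorin

/-- a continuous nowhere zero function on a convex open set has a continuous logarithm -/
theorem exists_log_convex {E : Type*} [NormedAddCommGroup E] [NormedSpace ℝ E] {K : Set E}
    (hK : Convex ℝ K) (ho : IsOpen K) (f : E → ℂ) (hf : ContinuousOn f K)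
    (h0 : ∀ x ∈ K, f x ≠ 0) :
    ∃ L : E → ℂ, ContinuousOn L K ∧ ∀ x ∈ K, Complex.exp (L x) = f x := by
  classical
  rcases K.eq_empty_or_nonempty with hE | hne
  · subst hE
    exact ⟨fun _ => 0, continuousOn_empty _, fun x hx => by simp at hx⟩
  · obtain ⟨x₀, hx₀⟩ := hne
    have : ContractibleSpace K := hK.contractibleSpace ⟨x₀, hx₀⟩
    have : LocallyPathConnectedSpace K := ho.locallyPathConnectedSpace
    have hfc : Continuous (fun x : K => f x) := continuousOn_iff_continuous_domRestrict.1 hf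
    obtain ⟨F, ⟨-, hF⟩, -⟩ := Complex.isCoveringMapOn_exp.existsUnique_continuousMap_lifts
      (A := K) ⟨fun x : K => f x, hfc⟩ (a₀ := ⟨x₀, hx₀⟩) (e₀ := Complex.log (f x₀))
      (by simpa using Complex.exp_log (h0 x₀ hx₀)) (fun a => by simpa using h0 a a.2)
    refine ⟨fun x => if hx : x ∈ K then F ⟨x, hx⟩ else 0, ?_, ?_⟩
    · rw [continuousOn_iff_continuous_domRestrict]
      convert F.continuous using 1
      ext x
      simp
    · intro x hx
      have := congrFun hF ⟨x, hx⟩
      simpa [hx] using this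

/-- evenly covered neighbourhood from sections -/
theorem evenlyCovered_of_sections {W B I : Type*} [TopologicalSpace W] [TopologicalSpace B]
    [TopologicalSpace I] [DiscreteTopology I] (q : W → B) (hq : Continuous q) (x : B) (U : Set B)
    (hxU : x ∈ U) (hU : IsOpen U) (σ : I → U → W) (hσ : ∀ i, Continuous (σ i))
    (hqσ : ∀ i z, q (σ i z) = z) (hinj : ∀ i j z, σ i z = σ j z → i = j)
    (hcov : ∀ w, (h : q w ∈ U) → ∃ i, σ i ⟨q w, h⟩ = w)
    (hopen : ∀ i, IsOpen (Set.range (σ i))) : IsEvenlyCovered q x I := by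
  classical
  refine ⟨inferInstance, U, hxU, hU, hU.preimage hq, ?_⟩
  choose idx hidx using hcov
  refine ⟨{ toFun := fun w => (⟨q w, w.2⟩, idx w w.2)
            invFun := fun p => ⟨σ p.2 p.1, by simp [hqσ]⟩
            left_inv := ?_
            right_inv := ?_
            continuous_toFun := ?_
            continuous_invFun := ?_ }, ?_⟩
  · intro w
    exact Subtype.ext (hidx w w.2)
  · rintro ⟨z, i⟩
    have h1 : (⟨q (σ i z), by simp [hqσ]⟩ : U) = z := Subtype.ext (hqσ i z)
    refine Prod.ext h1 ?_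
    refine hinj _ _ z ?_
    have := hidx (σ i z) (by simp [hqσ])
    rw [h1] at this
    exact this
  · refine Continuous.prodMk ((hq.comp continuous_subtype_val).subtype_mk _) ?_
    rw [continuous_discrete_rng]
    intro i
    have : (fun w : q ⁻¹' U => idx w w.2) ⁻¹' {i} = Subtype.val ⁻¹' (Set.range (σ i)) := by
      ext w
      simp only [mem_preimage, mem_singleton_iff, mem_range]
      constructor
      · intro h
        exact ⟨⟨q w, w.2⟩, by rw [← h]; exact hidx w w.2⟩
      · rintro ⟨z, hz⟩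
        have h1 : (⟨q w, w.2⟩ : U) = z := Subtype.ext (by rw [← hqσ i z, hz])
        refine hinj _ _ z ?_
        rw [← h1, hidx w w.2, h1, hz]
    rw [this]
    exact (hopen i).preimage continuous_subtype_val
  · refine Continuous.subtype_mk ?_ _
    have : Continuous (fun p : U × I => σ p.2 p.1) := by
      rw [continuous_prod_of_discrete_right]
      exact fun i => hσ i
    exact this
  · intro w
    rfl


section
variable {m k : ℕ} {Y : Set (Fin m → ℂ)} {pr : (Fin m → ℂ) → (Fin k → ℂ)}
  {δ : MvPolynomial (Fin k) ℂ} {e : ℕ}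

/-- sections of the covering with logarithms of `g` over a small ball -/
theorem local_data (hc : Cov Y pr δ e) (g : (Fin m → ℂ) → ℂ) (hg : ContinuousOn g Y)
    (hg0 : ∀ y ∈ Y, g y ≠ 0) (z : Fin k → ℂ) (hz : MvPolynomial.eval z δ ≠ 0) :
    ∃ r : ℝ, 0 < r ∧ ∃ (s : Fin e → (Fin k → ℂ) → (Fin m → ℂ)) (L : Fin e → (Fin k → ℂ) → ℂ),
      (∀ i, ContinuousOn (s i) (ball z r)) ∧ (∀ i, ContinuousOn (L i) (ball z r)) ∧
      ∀ z' ∈ ball z r, MvPolynomial.eval z' δ ≠ 0 ∧ Function.Injective (fun i => s i z') ∧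
        {y | y ∈ Y ∧ pr y = z'} = Set.range (fun i => s i z') ∧
        ∀ i, Complex.exp (L i z') = g (s i z') := by
  obtain ⟨r, hr, s, hs, hs'⟩ := hc.sections z hz
  have hmem : ∀ i, ∀ z' ∈ ball z r, s i z' ∈ Y := by
    intro i z' hz'
    have : s i z' ∈ {y | y ∈ Y ∧ pr y = z'} := by
      rw [(hs' z' hz').2.2]
      exact ⟨i, rfl⟩
    exact this.1
  have hL : ∀ i, ∃ L : (Fin k → ℂ) → ℂ, ContinuousOn L (ball z r) ∧
      ∀ x ∈ ball z r, Complex.exp (L x) = g (s i x) := by
    intro i
    refine exists_log_convex (convex_ball z r) isOpen_ball (fun x => g (s i x)) ?_ ?_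
    · exact hg.comp (hs i).continuousOn (fun x hx => hmem i x hx)
    · exact fun x hx => hg0 _ (hmem i x hx)
  choose L hL1 hL2 using hL
  exact ⟨r, hr, s, L, fun i => (hs i).continuousOn, hL1, fun z' hz' =>
    ⟨(hs' z' hz').1, (hs' z' hz').2.1, (hs' z' hz').2.2, fun i => hL2 i z' hz'⟩⟩

theorem continuous_qW (hc : Cov Y pr δ e) (g : (Fin m → ℂ) → ℂ) :
    Continuous (qW Y pr δ g) := by
  refine Continuous.subtype_mk ?_ _
  exact hc.diff.continuous.comp (continuous_fst.comp continuous_subtype_val)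

theorem isCoveringMap_qW (hc : Cov Y pr δ e) (g : (Fin m → ℂ) → ℂ) (hg : ContinuousOn g Y)
    (hg0 : ∀ y ∈ Y, g y ≠ 0) : IsCoveringMap (qW Y pr δ g) := by
  classical
  intro x
  obtain ⟨r, hr, s, L, hs, hL, h⟩ := local_data hc g hg hg0 x.1 x.2
  refine IsEvenlyCovered.to_isEvenlyCovered_preimage (I := Fin e × ℤ) ?_
  have hmem : ∀ i, ∀ z' ∈ ball x.1 r, s i z' ∈ Y ∧ pr (s i z') = z' := by
    intro i z' hz'
    have : s i z' ∈ {y | y ∈ Y ∧ pr y = z'} := by
      rw [(h z' hz').2.2.1]
      exact ⟨i, rfl⟩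
    exact this
  set U : Set (Sp δ) := {z' | z'.1 ∈ ball x.1 r} with hU
  have hexp : ∀ (a : ℂ) (n : ℤ), Complex.exp (a + n * (2 * Real.pi * Complex.I)) =
      Complex.exp a := by
    intro a n
    rw [Complex.exp_eq_exp_iff_exists_int]
    exact ⟨n, rfl⟩
  let σ : Fin e × ℤ → U → Wg Y pr δ g := fun p z' =>
    ⟨(s p.1 z'.1.1, L p.1 z'.1.1 + p.2 * (2 * Real.pi * Complex.I)),
      (hmem p.1 _ z'.2).1, by
        change MvPolynomial.eval (pr (s p.1 z'.1.1)) δ ≠ 0
        rw [(hmem p.1 _ z'.2).2]; exact z'.1.2, by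
        change Complex.exp (L p.1 z'.1.1 + p.2 * (2 * Real.pi * Complex.I)) = g (s p.1 z'.1.1)
        rw [hexp]; exact (h _ z'.2).2.2.2 p.1⟩
  have hopU : IsOpen U := isOpen_ball.preimage continuous_subtype_val
  have hcq := continuous_qW hc g
  refine evenlyCovered_of_sections (qW Y pr δ g) hcq x U
    (by simpa [hU] using hr) hopU σ ?_ ?_ ?_ ?_ ?_
  · rintro ⟨i, n⟩
    refine Continuous.subtype_mk (Continuous.prodMk ?_ ?_) _
    · exact (hs i).comp_continuous (continuous_subtype_val.comp continuous_subtype_val)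
        (fun z' => z'.2)
    · exact ((hL i).comp_continuous (continuous_subtype_val.comp continuous_subtype_val)
        (fun z' => z'.2)).add continuous_const
  · rintro ⟨i, n⟩ z'
    exact Subtype.ext (hmem i _ z'.2).2
  · rintro ⟨i, n⟩ ⟨j, l⟩ z' hz'
    have h1 := congrArg (fun w : Wg Y pr δ g => w.1.1) hz'
    have h2 := congrArg (fun w : Wg Y pr δ g => w.1.2) hz'
    simp only [σ] at h1 h2
    have hij : i = j := (h _ z'.2).2.1 h1
    subst hij
    have h3 : (n : ℂ) = l := by
      have hne : (2 * Real.pi * Complex.I : ℂ) ≠ 0 := Complex.two_pi_I_ne_zero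
      exact mul_right_cancel₀ hne (add_left_cancel h2)
    rw [Int.cast_injective h3]
  · intro w hw0
    have hw : pr w.1.1 ∈ ball x.1 r := hw0
    have h1 : w.1.1 ∈ {y | y ∈ Y ∧ pr y = pr w.1.1} := ⟨w.2.1, rfl⟩
    rw [(h _ hw).2.2.1] at h1
    obtain ⟨i, hi⟩ := h1
    have h2 : Complex.exp w.1.2 = Complex.exp (L i (pr w.1.1)) := by
      rw [w.2.2.2, (h _ hw).2.2.2 i]
      exact congrArg g hi.symm
    rw [Complex.exp_eq_exp_iff_exists_int] at h2
    obtain ⟨n, hn⟩ := h2
    refine ⟨(i, n), Subtype.ext (Prod.ext ?_ ?_)⟩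
    · exact hi
    · exact hn.symm
  · rintro ⟨i, n⟩
    set V : Set (Wg Y pr δ g) := qW Y pr δ g ⁻¹' U with hV
    have hVo : IsOpen V := hopU.preimage hcq
    have hcpr : Continuous (fun w : Wg Y pr δ g => pr w.1.1) :=
      hc.diff.continuous.comp (continuous_fst.comp continuous_subtype_val)
    have hA : ∀ j, IsOpen (V ∩ (fun w : Wg Y pr δ g => s j (pr w.1.1) - w.1.1) ⁻¹' {0}ᶜ) := by
      intro j
      refine ContinuousOn.isOpen_inter_preimage ?_ hVo isOpen_compl_singleton
      refine ContinuousOn.sub ?_ (continuous_fst.comp continuous_subtype_val).continuousOn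
      exact (hs j).comp hcpr.continuousOn (fun w hw => hw)
    have hB : IsOpen (V ∩ (fun w : Wg Y pr δ g => w.1.2 - L i (pr w.1.1) -
        n * (2 * Real.pi * Complex.I)) ⁻¹' ball 0 1) := by
      refine ContinuousOn.isOpen_inter_preimage ?_ hVo isOpen_ball
      refine ContinuousOn.sub (ContinuousOn.sub
        (continuous_snd.comp continuous_subtype_val).continuousOn ?_) continuousOn_const
      exact (hL i).comp hcpr.continuousOn (fun w hw => hw)
    have : Set.range (σ (i, n)) = (⋂ j ∈ (Finset.univ.erase i : Finset (Fin e)),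
        (V ∩ (fun w : Wg Y pr δ g => s j (pr w.1.1) - w.1.1) ⁻¹' {0}ᶜ)) ∩
        (V ∩ (fun w : Wg Y pr δ g => w.1.2 - L i (pr w.1.1) -
        n * (2 * Real.pi * Complex.I)) ⁻¹' ball 0 1) := by
      ext w
      simp only [mem_range, mem_inter_iff, mem_iInter, mem_preimage, mem_compl_iff,
        mem_singleton_iff, Finset.mem_erase, Finset.mem_univ, and_true]
      constructor
      · rintro ⟨z', rfl⟩
        have e1 : pr (s i z'.1.1) = z'.1.1 := (hmem i _ z'.2).2
        have hVz : σ (i, n) z' ∈ V := by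
          change pr (s i z'.1.1) ∈ ball x.1 r
          rw [e1]; exact z'.2
        refine ⟨fun j hj => ⟨hVz, ?_⟩, hVz, ?_⟩
        · change ¬ (s j (pr (s i z'.1.1)) - s i z'.1.1 = 0)
          rw [e1, sub_eq_zero]
          exact fun hh => hj ((h _ z'.2).2.1 hh)
        · change L i z'.1.1 + n * (2 * Real.pi * Complex.I) - L i (pr (s i z'.1.1)) -
            n * (2 * Real.pi * Complex.I) ∈ ball (0 : ℂ) 1
          rw [e1]
          simp
      · rintro ⟨h1, h20, h3⟩
        have h2 : pr w.1.1 ∈ ball x.1 r := h20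
        have h4 : w.1.1 ∈ {y | y ∈ Y ∧ pr y = pr w.1.1} := ⟨w.2.1, rfl⟩
        rw [(h _ h2).2.2.1] at h4
        obtain ⟨j, hj⟩ := h4
        have hij : j = i := by
          by_contra hne
          exact (h1 j hne).2 (sub_eq_zero.2 hj)
        subst hij
        have h5 : Complex.exp w.1.2 = Complex.exp (L j (pr w.1.1)) := by
          rw [w.2.2.2, (h _ h2).2.2.2 j]
          exact congrArg g hj.symm
        rw [Complex.exp_eq_exp_iff_exists_int] at h5
        obtain ⟨l, hl⟩ := h5
        rw [hl, mem_ball_zero_iff] at h3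
        have e2 : L j (pr w.1.1) + l * (2 * Real.pi * Complex.I) - L j (pr w.1.1) -
          n * (2 * Real.pi * Complex.I) = ((l - n : ℤ) : ℂ) * (2 * Real.pi * Complex.I) := by
          push_cast; ring
        rw [e2, norm_mul] at h3
        have e3 : ‖(2 * Real.pi * Complex.I : ℂ)‖ = 2 * Real.pi := by
          simp [abs_of_pos Real.pi_pos]
        rw [e3, Complex.norm_intCast] at h3
        have hln : l = n := by
          by_contra hne
          have h6 : (1 : ℝ) ≤ |((l - n : ℤ) : ℝ)| := by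
            have : (1 : ℤ) ≤ |l - n| := Int.one_le_abs (sub_ne_zero.2 hne)
            exact_mod_cast this
          have h7 := Real.pi_gt_three
          nlinarith
        subst hln
        refine ⟨⟨⟨pr w.1.1, w.2.2.1⟩, h2⟩, Subtype.ext (Prod.ext ?_ ?_)⟩
        · exact hj
        · exact hl.symm
    rw [this]
    exact (isOpen_biInter_finset (fun j _ => hA j)).inter hB

end

end Pool.Agent.J4.H71.Gorin
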