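import Pool.Agent.J4.H71.Gorin.Cover

/-! Pushing paths out of small discs around the roots, and transport of reachable points. -/

set_option autoImplicit false
set_option maxHeartbeats 4000000

open Metric Set Topology Filter H113G

namespace Pool.Agent.J4.H71.Gorin

/-- push away from the points `b i` -/
noncomputable def push {N : ℕ} (b : Fin N → ℂ) (ρ : ℝ) (a : ℝ) (t : ℂ) : ℂ :=
  t + ∑ i, ((a * max 0 (ρ / ‖t - b i‖ - 1) : ℝ) : ℂ) * (t - b i)

theorem push_eq_self {N : ℕ} (b : Fin N → ℂ) (ρ : ℝ) (a : ℝ) (t : ℂ) (hρ : 0 < ρ)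
    (h : ∀ i, ρ ≤ ‖t - b i‖) : push b ρ a t = t := by
  unfold push
  have : ∀ i, ((a * max 0 (ρ / ‖t - b i‖ - 1) : ℝ) : ℂ) * (t - b i) = 0 := by
    intro i
    have h1 : ρ / ‖t - b i‖ - 1 ≤ 0 := by
      rw [sub_nonpos, div_le_one (lt_of_lt_of_le hρ (h i))]
      exact h i
    rw [max_eq_left h1]
    simp
  rw [Finset.sum_eq_zero (fun i _ => this i), add_zero]

theorem push_zero {N : ℕ} (b : Fin N → ℂ) (ρ : ℝ) (t : ℂ) : push b ρ 0 t = t := by
  simp [push]

theorem push_spec {N : ℕ} (b : Fin N → ℂ) (ρ : ℝ) (hρ : 0 < ρ)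
    (hb : ∀ i j, i ≠ j → 2 * ρ ≤ ‖b i - b j‖) (a : ℝ) (ha0 : 0 ≤ a) (ha1 : a ≤ 1) (t : ℂ)
    (ht : ∀ i, t ≠ b i) :
    (∀ j, push b ρ a t ≠ b j) ∧ (a = 1 → ∀ j, ρ ≤ ‖push b ρ a t - b j‖) := by
  classical
  by_cases hall : ∀ i, ρ ≤ ‖t - b i‖
  · rw [push_eq_self b ρ a t hρ hall]
    exact ⟨ht, fun _ => hall⟩
  · push Not at hall
    obtain ⟨i, hi⟩ := hall
    have hr : 0 < ‖t - b i‖ := norm_pos_iff.2 (sub_ne_zero.2 (ht i))
    have hoth : ∀ j, j ≠ i → ρ ≤ ‖t - b j‖ := by
      intro j hj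
      have h1 := hb i j hj.symm
      have h2 : ‖b i - b j‖ ≤ ‖t - b i‖ + ‖t - b j‖ := by
        have : b i - b j = (t - b j) - (t - b i) := by ring
        rw [this]
        calc ‖(t - b j) - (t - b i)‖ ≤ ‖t - b j‖ + ‖t - b i‖ := norm_sub_le _ _
          _ = _ := add_comm _ _
      linarith
    have hform : push b ρ a t - b i =
        ((1 + a * (ρ / ‖t - b i‖ - 1) : ℝ) : ℂ) * (t - b i) := by
      unfold push
      rw [Finset.sum_eq_single i]
      · have h1 : 0 ≤ ρ / ‖t - b i‖ - 1 := by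
          rw [sub_nonneg, le_div_iff₀ hr]
          linarith
        rw [max_eq_right h1]
        push_cast
        ring
      · intro j _ hj
        have h1 : ρ / ‖t - b j‖ - 1 ≤ 0 := by
          rw [sub_nonpos, div_le_one (lt_of_lt_of_le hρ (hoth j hj))]
          exact hoth j hj
        rw [max_eq_left h1]
        simp
      · intro h
        exact absurd (Finset.mem_univ i) h
    have hpos : 0 ≤ ρ / ‖t - b i‖ - 1 := by
      rw [sub_nonneg, le_div_iff₀ hr]
      linarith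
    have hnorm : ‖push b ρ a t - b i‖ = ‖t - b i‖ + a * (ρ - ‖t - b i‖) := by
      rw [hform, norm_mul, Complex.norm_real, Real.norm_eq_abs,
        abs_of_nonneg (by positivity)]
      field_simp
    have hle : ‖push b ρ a t - b i‖ ≤ ρ := by
      rw [hnorm]
      nlinarith
    have hlo : 0 < ‖push b ρ a t - b i‖ := by
      rw [hnorm]
      nlinarith
    have hj : ∀ j, j ≠ i → ρ ≤ ‖push b ρ a t - b j‖ := by
      intro j hj
      have h1 := hb i j hj.symm
      have h2 : ‖b i - b j‖ ≤ ‖push b ρ a t - b i‖ + ‖push b ρ a t - b j‖ := by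
        have : b i - b j = (push b ρ a t - b j) - (push b ρ a t - b i) := by ring
        rw [this]
        calc ‖(push b ρ a t - b j) - (push b ρ a t - b i)‖
            ≤ ‖push b ρ a t - b j‖ + ‖push b ρ a t - b i‖ := norm_sub_le _ _
          _ = _ := add_comm _ _
      linarith
    refine ⟨fun j => ?_, fun h1 j => ?_⟩
    · by_cases hji : j = i
      · subst hji
        exact sub_ne_zero.1 (norm_pos_iff.1 hlo)
      · exact sub_ne_zero.1 (norm_pos_iff.1 (lt_of_lt_of_le hρ (hj j hji)))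
    · by_cases hji : j = i
      · subst hji
        rw [hnorm, h1]
        linarith
      · exact hj j hji

theorem continuous_push {X : Type*} [TopologicalSpace X] {N : ℕ} (b : Fin N → ℂ) (ρ : ℝ)
    (a : X → ℝ) (t : X → ℂ) (ha : Continuous a) (ht : Continuous t) (h : ∀ x i, t x ≠ b i) :
    Continuous (fun x => push b ρ (a x) (t x)) := by
  unfold push
  refine ht.add (continuous_finsetSum _ fun i _ => ?_)
  refine Continuous.mul ?_ (ht.sub continuous_const)
  refine Complex.continuous_ofReal.comp (ha.mul ?_)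
  refine continuous_const.max (Continuous.sub ?_ continuous_const)
  exact continuous_const.div (ht.sub continuous_const).norm
    (fun x => (norm_pos_iff.2 (sub_ne_zero.2 (h x i))).ne')

/-- `w` is reachable from `w₀` by a path in its own line -/
def Reach {k : ℕ} {δ : MvPolynomial (Fin k) ℂ} {W : Type*} [TopologicalSpace W]
    (q : W → Sp δ) (w₀ w : W) : Prop := EndsAt q w₀ w (q w).1 1

theorem transport {k : ℕ} {δ : MvPolynomial (Fin k) ℂ} {W : Type*} [TopologicalSpace W]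
    (q : W → Sp δ) (hq : IsCoveringMap q) (w₀ : W) (h00 : MvPolynomial.eval 0 δ ≠ 0)
    (z : Fin k → ℂ) (hz : MvPolynomial.eval z δ ≠ 0) (hst : RootStable δ z) :
    ∃ ε : ℝ, 0 < ε ∧ ∀ w w' : W, (q w).1 ∈ ball z ε → (q w').1 ∈ ball z ε → Reach q w₀ w →
      ∀ G : C(unitInterval, W), G 0 = w → G 1 = w' →
        (∀ σ, (q (G σ)).1 = (q w).1 + ((σ : ℝ) : ℂ) • ((q w').1 - (q w).1)) → Reach q w₀ w' := by
  classical
  obtain ⟨N, a, hainj, ha, hst⟩ := hst
  -- choose a small radius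
  have ha0 : ∀ i, a i ≠ 0 := by
    intro i hi
    have := (ha 0).2 ⟨i, hi.symm⟩
    rw [zero_smul] at this
    exact h00 this
  have ha1 : ∀ i, a i ≠ 1 := by
    intro i hi
    have := (ha 1).2 ⟨i, hi.symm⟩
    rw [one_smul] at this
    exact hz this
  obtain ⟨ρ, hρ, hρ0, hρ1, hρ2⟩ : ∃ ρ : ℝ, 0 < ρ ∧ (∀ i, 10 * ρ ≤ ‖a i‖) ∧
      (∀ i, 10 * ρ ≤ ‖a i - 1‖) ∧ (∀ i j, i ≠ j → 10 * ρ ≤ ‖a i - a j‖) := by
    have h1 : ∀ᶠ ρ : ℝ in 𝓝[>] 0, ∀ i, 10 * ρ ≤ ‖a i‖ := by
      rw [eventually_all]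
      intro i
      have : 0 < ‖a i‖ / 10 := by have := norm_pos_iff.2 (ha0 i); positivity
      filter_upwards [Ioo_mem_nhdsGT this] with ρ hρ
      linarith [hρ.2]
    have h2 : ∀ᶠ ρ : ℝ in 𝓝[>] 0, ∀ i, 10 * ρ ≤ ‖a i - 1‖ := by
      rw [eventually_all]
      intro i
      have : 0 < ‖a i - 1‖ / 10 := by
        have := norm_pos_iff.2 (sub_ne_zero.2 (ha1 i)); positivity
      filter_upwards [Ioo_mem_nhdsGT this] with ρ hρ
      linarith [hρ.2]
    have h3 : ∀ᶠ ρ : ℝ in 𝓝[>] 0, ∀ i j, i ≠ j → 10 * ρ ≤ ‖a i - a j‖ := by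
      rw [eventually_all]
      intro i
      rw [eventually_all]
      intro j
      by_cases hij : i = j
      · exact Eventually.of_forall (fun _ h => absurd hij h)
      · have : 0 < ‖a i - a j‖ / 10 := by
          have := norm_pos_iff.2 (sub_ne_zero.2 (fun h => hij (hainj h))); positivity
        filter_upwards [Ioo_mem_nhdsGT this] with ρ hρ _
        linarith [hρ.2]
    obtain ⟨ρ, hρ⟩ := (((h1.and h2).and h3).and self_mem_nhdsWithin).exists
    exact ⟨ρ, hρ.2, hρ.1.1.1, hρ.1.1.2, hρ.1.2⟩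
  obtain ⟨ε, hε, hroots⟩ := hst ρ hρ
  refine ⟨ε, hε, ?_⟩
  intro w w' hw hw' hR G hG0 hG1 hG
  obtain ⟨c, hc, Γ, hΓ0, hΓ1, hΓ⟩ := hR
  set v := (q w).1 with hv
  set v' := (q w').1 with hv'
  obtain ⟨b, hb, hbroot⟩ := hroots v hw
  -- properties of the roots on the line of v
  have hbb : ∀ i j, i ≠ j → 2 * (3 * ρ) ≤ ‖b i - b j‖ := by
    intro i j hij
    have h1 := hρ2 i j hij
    have h2 : ‖a i - a j‖ ≤ ‖b i - a i‖ + ‖b i - b j‖ + ‖b j - a j‖ := by
      have : a i - a j = -(b i - a i) + (b i - b j) + (b j - a j) := by ring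
      rw [this]
      refine (norm_add_le _ _).trans (add_le_add_left ((norm_add_le _ _).trans ?_) _)
      rw [norm_neg]
    have := hb i; have := hb j
    linarith
  have hb0 : ∀ i, 3 * ρ ≤ ‖(0 : ℂ) - b i‖ := by
    intro i
    have h1 := hρ0 i
    have h2 : ‖a i‖ ≤ ‖b i - a i‖ + ‖(0 : ℂ) - b i‖ := by
      have : a i = -(b i - a i) - (0 - b i) := by ring
      calc ‖a i‖ = ‖-(b i - a i) - (0 - b i)‖ := by rw [← this]
        _ ≤ ‖-(b i - a i)‖ + ‖(0 : ℂ) - b i‖ := norm_sub_le _ _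
        _ = _ := by rw [norm_neg]
    have := hb i
    linarith
  have hb1 : ∀ i, 3 * ρ ≤ ‖(1 : ℂ) - b i‖ := by
    intro i
    have h1 := hρ1 i
    have h2 : ‖a i - 1‖ ≤ ‖b i - a i‖ + ‖(1 : ℂ) - b i‖ := by
      have : a i - 1 = -(b i - a i) - (1 - b i) := by ring
      rw [this]
      calc ‖-(b i - a i) - (1 - b i)‖ ≤ ‖-(b i - a i)‖ + ‖(1 : ℂ) - b i‖ := norm_sub_le _ _
        _ = _ := by rw [norm_neg]
    have := hb i
    linarith
  have h3ρ : 0 < 3 * ρ := by positivity
  have hcb : ∀ τ i, c τ ≠ b i := by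
    intro τ i hh
    exact hc.2.2 τ ((hbroot (c τ)).2 ⟨i, hh⟩)
  -- the homotopy
  let al : unitInterval → ℝ := fun σ => min (2 * (σ : ℝ)) 1
  let be : unitInterval → ℝ := fun σ => max (2 * (σ : ℝ) - 1) 0
  have hal : Continuous al := by fun_prop
  have hbe : Continuous be := by fun_prop
  have hal0 : ∀ σ, 0 ≤ al σ := fun σ => le_min (by have := σ.2.1; positivity) zero_le_one
  have hal1 : ∀ σ, al σ ≤ 1 := fun σ => min_le_right _ _
  have hbe0 : ∀ σ, 0 ≤ be σ := fun σ => le_max_right _ _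
  have hbe1 : ∀ σ, be σ ≤ 1 := fun σ => max_le (by have := σ.2.2; linarith) zero_le_one
  have hcase : ∀ σ, be σ = 0 ∨ al σ = 1 := by
    intro σ
    rcases le_total (2 * (σ : ℝ)) 1 with h | h
    · left; exact max_eq_right (by linarith)
    · right; exact min_eq_right h
  have hKne : ∀ x : unitInterval × unitInterval,
      MvPolynomial.eval (push b (3 * ρ) (al x.1) (c x.2) •
        (v + ((be x.1 : ℝ) : ℂ) • (v' - v))) δ ≠ 0 := by
    rintro ⟨σ, τ⟩
    have hp := push_spec b (3 * ρ) h3ρ hbb (al σ) (hal0 σ) (hal1 σ) (c τ) (hcb τ)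
    rcases hcase σ with h | h
    · simp only [h, Complex.ofReal_zero, zero_smul, add_zero]
      intro hh
      obtain ⟨i, hi⟩ := (hbroot _).1 hh
      exact hp.1 i hi
    · have hvb : v + ((be σ : ℝ) : ℂ) • (v' - v) ∈ ball z ε := by
        have := (convex_ball z ε) hw hw' (sub_nonneg.2 (hbe1 σ)) (hbe0 σ) (by ring)
        convert this using 1
        rw [sub_smul, one_smul]
        ext j
        simp only [Pi.add_apply, Pi.smul_apply, Pi.sub_apply, smul_eq_mul, Complex.real_smul]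
        ring
      obtain ⟨b', hb', hbroot'⟩ := hroots _ hvb
      intro hh
      obtain ⟨i, hi⟩ := (hbroot' _).1 hh
      have h1 := hp.2 h i
      simp only at hi
      rw [hi] at h1
      have h2 : ‖b' i - b i‖ ≤ ‖b' i - a i‖ + ‖b i - a i‖ := by
        have : b' i - b i = (b' i - a i) - (b i - a i) := by ring
        rw [this]
        exact norm_sub_le _ _
      have := hb i; have := hb' i
      linarith
  have hKc : Continuous (fun x : unitInterval × unitInterval =>
      push b (3 * ρ) (al x.1) (c x.2) • (v + ((be x.1 : ℝ) : ℂ) • (v' - v))) := by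
    refine Continuous.smul (f := fun x : unitInterval × unitInterval =>
      push b (3 * ρ) (al x.1) (c x.2)) (g := fun x : unitInterval × unitInterval =>
      (v + ((be x.1 : ℝ) : ℂ) • (v' - v) : Fin k → ℂ)) ?_ ?_
    · exact continuous_push b (3 * ρ) (fun x : unitInterval × unitInterval => al x.1)
        (fun x => c x.2) (hal.comp continuous_fst) (c.continuous.comp continuous_snd)
        (fun x i => hcb x.2 i)
    · have h5 : Continuous (fun x : unitInterval × unitInterval => ((be x.1 : ℝ) : ℂ)) :=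
        Complex.continuous_ofReal.comp (hbe.comp continuous_fst)
      exact continuous_const.add (h5.smul (continuous_const (y := v' - v)))
  let K : C(unitInterval × unitInterval, Sp δ) :=
    ⟨fun x => ⟨_, hKne x⟩, hKc.subtype_mk _⟩
  have hal_0 : al 0 = 0 := by simp [al]
  have hbe_0 : be 0 = 0 := by simp [be]
  have hal_1 : al 1 = 1 := by simp [al]
  have hbe_1 : be 1 = 1 := by simp [be]; norm_num
  have hK0 : ∀ τ, K (0, τ) = q (Γ τ) := by
    intro τ
    refine Subtype.ext ?_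
    change push b (3 * ρ) (al 0) (c τ) • (v + ((be 0 : ℝ) : ℂ) • (v' - v)) = (q (Γ τ)).1
    rw [hal_0, hbe_0, push_zero, hΓ τ]
    simp
  let H := hq.liftHomotopy K Γ hK0
  have hHl : ∀ x, q (H x) = K x := fun x => congrFun (hq.liftHomotopy_lifts K Γ hK0) x
  have hH0 : ∀ τ, H (0, τ) = Γ τ := hq.liftHomotopy_zero K Γ hK0
  -- the starting point
  have hs : ∀ σ, H (σ, 0) = w₀ := by
    intro σ
    have h1 : H (σ, 0) = H (0, 0) := by
      refine hq.const_of_comp (g := fun σ => H (σ, 0)) (by fun_prop) ?_ σ 0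
      intro s s'
      change q (H (s, 0)) = q (H (s', 0))
      rw [hHl, hHl]
      refine Subtype.ext ?_
      change push b (3 * ρ) (al s) (c 0) • (v + ((be s : ℝ) : ℂ) • (v' - v)) =
        push b (3 * ρ) (al s') (c 0) • (v + ((be s' : ℝ) : ℂ) • (v' - v))
      rw [hc.1, push_eq_self b _ _ _ h3ρ hb0, push_eq_self b _ _ _ h3ρ hb0, zero_smul,
        zero_smul]
    rw [h1, hH0, hΓ0]
  -- the end point
  have he : H (1, 1) = w' := by
    let bs : unitInterval → unitInterval := fun σ => ⟨be σ, hbe0 σ, hbe1 σ⟩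
    have hbs : Continuous bs := hbe.subtype_mk _
    have h1 : (fun σ => H (σ, 1)) = (fun σ => G (bs σ)) := by
      refine hq.eq_of_comp_eq (by fun_prop) (G.continuous.comp hbs) ?_ 0 ?_
      · funext σ
        change q (H (σ, 1)) = q (G (bs σ))
        rw [hHl]
        refine Subtype.ext ?_
        rw [hG]
        change push b (3 * ρ) (al σ) (c 1) • (v + ((be σ : ℝ) : ℂ) • (v' - v)) = _
        rw [hc.2.1, push_eq_self b _ _ _ h3ρ hb1, one_smul]
      · change H (0, 1) = G (bs 0)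
        have : bs 0 = 0 := Subtype.ext hbe_0
        rw [hH0, hΓ1, this, hG0]
    have h2 : H (1, 1) = G (bs 1) := congrFun h1 1
    have : bs 1 = 1 := Subtype.ext hbe_1
    rw [h2, this, hG1]
  refine ⟨⟨fun τ => push b (3 * ρ) 1 (c τ), ?_⟩, ⟨?_, ?_, ?_⟩, ⟨fun τ => H (1, τ), by fun_prop⟩,
    hs 1, he, ?_⟩
  · exact continuous_push b (3 * ρ) (fun _ => 1) c continuous_const c.continuous hcb
  · change push b (3 * ρ) 1 (c 0) = 0
    rw [hc.1, push_eq_self b _ _ _ h3ρ hb0]
  · change push b (3 * ρ) 1 (c 1) = 1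
    rw [hc.2.1, push_eq_self b _ _ _ h3ρ hb1]
  · intro τ
    have := hKne (1, τ)
    change MvPolynomial.eval (push b (3 * ρ) (al 1) (c τ) •
      (v + ((be 1 : ℝ) : ℂ) • (v' - v))) δ ≠ 0 at this
    rw [hal_1, hbe_1, Complex.ofReal_one, one_smul, add_sub_cancel] at this
    exact this
  · intro τ
    change (q (H (1, τ))).1 = _
    rw [hHl]
    change push b (3 * ρ) (al 1) (c τ) • (v + ((be 1 : ℝ) : ℂ) • (v' - v)) =
      push b (3 * ρ) 1 (c τ) • v'
    rw [hal_1, hbe_1]
    simp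

end Pool.Agent.J4.H71.Gorin
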